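import Pool.Agent.N71.PS.Stubs

/-!
# Statements on characters and sets of primes
-/

set_option autoImplicit false

namespace Pool.Agent.N71.PS

open Finset Filter Pool.Agent.H38R2.CG Pool.Agent.H38R2.CG2
open scoped Classical

/-- SW: Siegel-Walfisz for the primes in (y, 2y] (all primes). -/
def S_SW : Prop := ∀ B : ℕ, ∀ ε : ℝ, 0 < ε → ∃ y0 : ℕ, ∀ y ≥ y0, ∀ q : ℕ, 1 < q →
  (q : ℝ) ≤ (Real.log y) ^ B → ∀ χ : DirichletCharacter ℂ q, χ.IsPrimitive →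
  ‖∑ p ∈ Pool.Agent.H38R2.CG.PP y, χ (p : ZMod q)‖ ≤ ε * y / Real.log y

/-- HALF: a set with more than half of the primes satisfies the conditions of `PSet`. -/
def S_HALF : Prop := ∀ (P : Set ℕ) (δ : ℝ), 0 < δ →
  (∃ y0 : ℕ, ∀ y ≥ y0, (1 / 2 + δ) * (Pool.Agent.H38R2.CG.PP y).card ≤ (primesIn P y).card) →
  (∃ δ' : ℝ, 0 < δ' ∧ ∃ y0 : ℕ, ∀ y ≥ y0, δ' * y / Real.log y ≤ (primesIn P y).card) ∧
  ∀ (q : ℕ) (χ : DirichletCharacter ℂ q), 1 ≤ q → χ ≠ 1 → ∃ β : ℝ, β < 1 ∧ ∃ y0 : ℕ,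
    ∀ y ≥ y0, ‖∑ p ∈ primesIn P y, χ (p : ZMod q)‖ ≤ β * (primesIn P y).card

end Pool.Agent.N71.PS
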