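import Pool.Agent.N71.PS.Stubs
import Pool.Agent.N71.PS.Tasks

/-!
# Statements for arbitrary sets of primes of positive lower density

No hypothesis on character sums over the set of primes.  The characters modulo `Q` are treated by the
local densities, which are averaged over `v`.
-/

set_option autoImplicit false

namespace Pool.Agent.N71.PS

open Finset Filter NumberField Pool.Agent.H38R2.CG Pool.Agent.H38R2.CG2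
open scoped Classical

/-! ## Local densities -/

/-- local density at 2 -/
noncomputable def al2 (r n : ℕ) : ℝ :=
  if r % 8 = 1 then 1 else if r % 8 = 5 then 3 else
  if r % 16 = 12 then (if n % 4 = 1 then 4 else 0) else
  if n % 8 = 1 then 4 else if n % 8 = 5 then 0 else 2

/-- local density at an odd prime -/
noncomputable def al (l r n : ℕ) : ℝ :=
  if l ∣ r then 1 + (jacobiSym (n : ℤ) l : ℝ) else 1 - (jacobiSym (r : ℤ) l : ℝ) / l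

/-- product of the local densities -/
noncomputable def AN (z r n : ℕ) : ℝ :=
  al2 r n * ∏ l ∈ (Finset.Icc 3 z).filter Nat.Prime, al l r n

/-- `rhoQ` for the `v` that are not divisible by `p ^ (e + 1)`, `p ≤ z` -/
noncomputable def hh (z r e n v : ℕ) : ℝ :=
  if ∀ p ∈ (Qz z).primeFactors, ¬ p ^ (e + 1) ∣ v then (rhoQ z r n v : ℝ) else 0

/-- the local factor of `hh` at `p`, `k = 2` for odd `p` and `k = 4` for `p = 2` -/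
noncomputable def hp (p k r e n v : ℕ) : ℝ :=
  if ¬ p ^ (e + 1) ∣ v then
    (((Finset.range (p ^ (k + 2 * v.factorization p))).filter (fun u =>
      u ^ 2 ≡ 4 * n + r * v ^ 2 [MOD p ^ (k + 2 * v.factorization p)])).card : ℝ) else 0

/-- D_LO: the local factor at an odd prime. -/
def D_LO : Prop := ∀ (p r e n : ℕ), p.Prime → p ≠ 2 → ¬ p ^ 2 ∣ r → ¬ p ∣ n →
  (∀ v, hp p 2 r e n (v + p ^ (2 * e + 4)) = hp p 2 r e n v) ∧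
  ∑ v ∈ Finset.range (p ^ (2 * e + 4)), hp p 2 r e n v ≤ al p r n * (p : ℝ) ^ (2 * e + 4)

/-- D_L2: the local factor at 2. -/
def D_L2 : Prop := ∀ (r e n : ℕ), (r % 4 = 1 ∨ r % 16 = 8 ∨ r % 16 = 12) → ¬ 2 ∣ n →
  (∀ v, hp 2 4 r e n (v + 2 ^ (2 * e + 6)) = hp 2 4 r e n v) ∧
  ∑ v ∈ Finset.range (2 ^ (2 * e + 6)), hp 2 4 r e n v ≤ al2 r n * (2 : ℝ) ^ (2 * e + 6)

/-- D_LOC: the mean of `hh`. -/
def D_LOC : Prop := ∀ (z r e : ℕ), 2 ≤ z → FundRes z r → ∃ T : ℕ, 1 ≤ T ∧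
  (∀ p : ℕ, p.Prime → p ∣ T → p ∣ Qz z) ∧ ∀ n : ℕ, n.Coprime (Qz z) →
  (∀ v, hh z r e n (v + T) = hh z r e n v) ∧
  ∑ v ∈ Finset.range T, hh z r e n v ≤ AN z r n * T

/-- D_AV: sums over v of `hh` times the coefficients `kap`. -/
def D_AV : Prop := ∀ (z r e : ℕ), 2 ≤ z → FundRes z r → ∀ F0 : ℕ, ∃ Cq : ℝ, 0 ≤ Cq ∧
  ∀ (X V f n : ℕ) (P : Finset ℕ) (δ : ℝ) (C0 : ℕ) (ρ : ℕ → ℝ) (F : ℝ → ℝ) (I : ℝ),
  SWt z X P δ C0 ρ → 1 ≤ C0 → 1 ≤ f → f ≤ F0 → Squarefree f → f.Coprime (Qz z) →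
  n.Coprime (Qz z) → AntitoneOn F (Set.Ici 0) → (∀ x, 0 ≤ F x) →
  (∀ V : ℝ, 0 ≤ V → ∫ x in (0 : ℝ)..V, F x ≤ I) →
  ∑ v ∈ Finset.Icc 1 V, F v * |kap X ρ f v| * hh z r e n v ≤
    GG X ρ * ((C0 + 1 : ℝ) ^ f.primeFactors.card / f) * AN z r n * (Cq * F 0 + I)

/-- `AN` for `r` coprime to `Q` -/
def D_ANC : Prop := ∀ z r n : ℕ, 2 ≤ z → FundRes z r → r.Coprime (Qz z) →
  AN z r n = 2 * PiR z r

variable [PSet]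

/-! ## Character sums -/

/-- D_CC8: only boundedly many small f are bad, uniformly in the modulus. -/
def D_CC8 : Prop := ∃ K0 : ℕ, ∀ M : ℕ, 1 ≤ M → ∃ y0 : ℕ, ∀ y ≥ y0,
  ((Finset.Icc 1 ⌊(Real.log y) ^ 3⌋₊).filter
    (fun f => Squarefree f ∧ f.Coprime (2 * M) ∧ BadF (1 / 2) M y f)).card ≤ K0

/-- D_CC7: the bad f. -/
def D_CC7 : Prop := ∃ K0 : ℕ, ∀ a : ℝ, 2 < a → ∀ M : ℕ, 1 ≤ M → ∀ C1 : ℕ, ∀ ε : ℝ, 0 < ε →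
  ∃ F0 X0 : ℕ, ∀ X ≥ X0,
  ((Finset.Icc 1 F0).filter (fun f => Squarefree f ∧ f.Coprime (2 * M) ∧
    BadF (1 / 2) M (yA a X) f)).card ≤ K0 ∧
  ∑ f ∈ (Finset.Icc 1 X).filter (fun f => F0 < f ∧ Squarefree f ∧ f.Coprime (2 * M) ∧
      BadF (1 / 2) M (yA a X) f), (C1 : ℝ) ^ f.primeFactors.card / f ≤ ε

/-- D_NBAD: sums with one character that is not almost constant. -/
def D_NBAD : Prop := ∀ β : ℝ, β < 1 → ∀ a : ℝ, 2 < a → ∀ M : ℕ, 1 ≤ M → ∀ C1 i0 : ℕ,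
  ∀ l ε : ℝ, 0 < l → 0 < ε →
  ∃ X0 : ℕ, ∀ X ≥ X0, ∀ k : ℕ, kA a X - i0 ≤ k → k ≤ kA a X →
  ∃ b : ℝ, 0 ≤ b ∧ b ^ 2 * (1 + Real.log X) ^ C1 ≤ ε / Real.log X * (CA a X k) ^ 2 ∧
  ∀ (ψ : DirichletCharacter ℂ M) (f : ℕ), Squarefree f → f.Coprime (2 * M) →
  ‖∑ p ∈ PP (yA a X), ψ (p : ZMod M) * ((jacobiSym (p : ℤ) f : ℤ) : ℂ)‖ ≤
    β * (PP (yA a X)).card → ∀ ξ : ℝ, |ξ| ≤ l →
  ‖∑ s ∈ (PA a X).powersetCard k, ψ (prodS s : ZMod M) *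
      ((jacobiSym (prodS s : ℤ) f : ℤ) : ℂ) * Complex.exp (ξ * Real.log (prodS s) * Complex.I)‖ ≤ b

/-! ## The main sums -/

/-- D_TC: upper bound for small c. -/
def D_TC : Prop := ∀ a : ℝ, 2 < a → ∀ (C0 : ℕ), 1 ≤ C0 → ∃ Kc : ℝ, 0 < Kc ∧
  ∀ (z i0 : ℕ), ∀ l : ℝ, 0 < l →
  ∃ X0 : ℕ, ∀ X ≥ X0, ∀ ρ : ℕ → ℝ, SWt z X (PA a X) (cc a) C0 ρ →
  ∀ (c : Finset ℕ) (w V : ℕ) (F : ℝ → ℝ) (I t : ℝ),
  c ⊆ PA a X → c.card ≤ i0 → 1 ≤ w → (∀ p : ℕ, p.Prime → p ∣ w → p ∣ Qz z) →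
  AntitoneOn F (Set.Ici 0) → (∀ x, 0 ≤ F x) →
  (∀ V : ℝ, 0 ≤ V → ∫ x in (0 : ℝ)..V, F x ≤ I) → (V : ℝ) ≤ (X : ℝ) ^ (1 - cc a) →
  ∑ v ∈ (Finset.Icc 1 V).filter (fun v => w ∣ v), UJ a z X (kA a X - c.card) ρ c F l t v ≤
    3 ^ c.card * GG X ρ * (I / w) * (Kc * (SF a X (kA a X - c.card) c l t +
      (CA a X (kA a X - c.card)) ^ 2 / Real.log X))

/-- the weighted sum of the local densities -/
noncomputable def SAN (a : ℝ) (z r X : ℕ) (l t : ℝ) : ℝ :=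
  ∑ s ∈ SA a X, ∑ t' ∈ SA a X, AN z r (prodS s * prodS t') *
    fej (l * (Real.log (prodS s * prodS t' : ℕ) - t))

/-- D_TA: the main term for one t. -/
def D_TA : Prop := ∀ a : ℝ, 2 < a → ∀ (C0 : ℕ), 1 ≤ C0 → ∀ ε1 : ℝ, 0 < ε1 → ∃ z0 : ℕ, ∀ z ≥ z0,
  ∀ r : ℕ, 2 ≤ z → FundRes z r → ∀ l ε : ℝ, 0 < l → 0 < ε → ∃ Cq : ℝ, 0 ≤ Cq ∧ ∃ X0 : ℕ,
  ∀ X ≥ X0, ∀ ρ : ℕ → ℝ,
  SWt z X (PA a X) (cc a) C0 ρ → ∀ (V : ℕ) (F : ℝ → ℝ) (I t : ℝ),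
  AntitoneOn F (Set.Ici 0) → (∀ x, 0 ≤ F x) →
  (∀ V : ℝ, 0 ≤ V → ∫ x in (0 : ℝ)..V, F x ≤ I) → (V : ℝ) ≤ (X : ℝ) ^ (1 - cc a) →
  ∑ v ∈ Finset.Icc 1 V,
    F v * ∑ s ∈ SA a X, ∑ t' ∈ SA a X, (rhoQ z r (prodS s * prodS t') v : ℝ) *
      JJ z X ρ ∅ (prodS s * prodS t') v * fej (l * (Real.log (prodS s * prodS t' : ℕ) - t)) ≤
    GG X ρ * ((1 + ε1) * (Cq * F 0 + I) * SAN a z r X l t +
      ε * I * (SF a X (kA a X) ∅ l t + (NA a X) ^ 2 / Real.log X))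

/-- The weighted sum of the local densities is at most the expected one. -/
def SANB (a : ℝ) (z r : ℕ) : Prop := ∀ l ε : ℝ, 0 < l → 0 < ε → ∃ X0 : ℕ, ∀ X ≥ X0, ∀ t : ℝ,
  SAN a z r X l t ≤ 2 * PiR z r * SF a X (kA a X) ∅ l t +
    ε * (SF a X (kA a X) ∅ l t + (NA a X) ^ 2 / Real.log X)

/-- D_SB: `r` coprime to `Q`. -/
def D_SB : Prop := ∀ a : ℝ, 2 < a → ∀ z r : ℕ, 2 ≤ z → FundRes z r → r.Coprime (Qz z) → SANB a z r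

/-- The real characters that occur in the local densities for `r` are not almost constant on the
set: characters modulo 8 times the Jacobi symbols modulo the products `f` of odd primes `l ≤ z`
dividing `r`; if `r` is odd only the Jacobi symbols; if `r % 16 = 12` only with the characters
modulo 4; if `r % 16 = 8` only with the trivial and the even and odd characters of conductor 8. -/
def Adm (z r : ℕ) : Prop := ∀ (ψ : DirichletCharacter ℂ 8) (f : ℕ), f ∣ r →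
  f ∣ (∏ l ∈ (Finset.Icc 3 z).filter Nat.Prime, l) → (¬ 2 ∣ r → ψ = 1) →
  (r % 16 = 12 → ψ 5 = 1) → (r % 16 = 8 → ψ = 1 ∨ ψ 5 ≠ 1) →
  ¬ (ψ = 1 ∧ f = 1) → ∃ β : ℝ, β < 1 ∧ ∃ y0 : ℕ, ∀ y ≥ y0,
    ‖∑ p ∈ PP y, ψ (p : ZMod 8) * ((jacobiSym (p : ℤ) f : ℤ) : ℂ)‖ ≤ β * (PP y).card

/-- D_SA: admissible `r`. -/
def D_SA : Prop := ∀ a : ℝ, 2 < a → ∀ z r : ℕ, 2 ≤ z → FundRes z r → Adm z r → SANB a z r

/-- D_TMa: pairs of disjoint sets. -/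
def D_TMa : Prop := ∀ a : ℝ, 2 < a → ∀ C0 : ℕ, 1 ≤ C0 → ∀ ε : ℝ, 0 < ε → ∃ z0 : ℕ, ∀ z ≥ z0,
  ∀ r : ℕ, 2 ≤ z → FundRes z r → SANB a z r → ∀ η : ℝ, 0 < η → η ≤ 1 → ∃ X0 : ℕ, ∀ X ≥ X0,
  ∀ ρ : ℕ → ℝ, SWt z X (PA a X) (cc a) C0 ρ →
    ∑ s ∈ SA a X, ∑ t ∈ SA a X, MT a z r X η ρ ∅ s t ≤
      (1 + ε) * (PiR z r / (4 * Qz z)) * GG X ρ * η * √(X : ℝ) * (NA a X) ^ 2

/-- D_TMb: pairs with a small intersection. -/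
def D_TMb : Prop := ∀ a : ℝ, 2 < a → ∀ (z r : ℕ), 2 ≤ z → FundRes z r → ∀ η : ℝ, 0 < η →
  η ≤ 1 → ∀ C0 i0 : ℕ, 1 ≤ C0 → ∃ Kb : ℝ, 0 < Kb ∧ ∃ X0 : ℕ, ∀ X ≥ X0, ∀ ρ : ℕ → ℝ,
  SWt z X (PA a X) (cc a) C0 ρ → ∀ c ⊆ PA a X, c.card ≤ i0 →
    ∑ s ∈ (PA a X).powersetCard (kA a X - c.card),
      ∑ t ∈ (PA a X).powersetCard (kA a X - c.card), MT a z r X η ρ c s t ≤
      Kb * 3 ^ c.card * GG X ρ * η * √(X : ℝ) * (CA a X (kA a X - c.card)) ^ 2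

/-- D_TM: the near collision bound. -/
def D_TM : Prop := ∀ a : ℝ, 2 < a → ∀ C0 : ℕ, 1 ≤ C0 → ∀ ε : ℝ, 0 < ε → ∃ z0 : ℕ, ∀ z ≥ z0,
  ∀ r : ℕ, 2 ≤ z → FundRes z r → SANB a z r → ∀ η : ℝ, 0 < η → η ≤ 1 → ∃ X0 : ℕ, ∀ X ≥ X0,
  ∀ ρ : ℕ → ℝ, SWt z X (PA a X) (cc a) C0 ρ →
    ∑ D ∈ DD z r X η, wt ρ D * SD D (SA a X) (fun _ => 1) ≤
      (1 + ε) * (PiR z r / (2 * Qz z)) * GG X ρ * η * √(X : ℝ) * (NA a X) ^ 2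

end Pool.Agent.N71.PS
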