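import Pool.Agent.N71.PS.Stubs

/-!
# CC7: weighted harmonic sum over the bad f
-/

set_option autoImplicit false

namespace Pool.Agent.N71.PS

open Finset Filter NumberField Pool.Agent.H38R2.CG Pool.Agent.H38R2.CG2
open scoped Classical

variable [PSet]

namespace CC7h

lemma cover (S I : Finset ℕ) (A : ℕ → Finset ℕ) (v w : ℕ → ℝ) (hw : ∀ i ∈ I, 0 ≤ w i)
    (h : ∀ f ∈ S, ∃ i ∈ I, f ∈ A i ∧ v f ≤ w i) :
    ∑ f ∈ S, v f ≤ ∑ i ∈ I, ((A i).card : ℝ) * w i := by
  choose! g hg using h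
  calc ∑ f ∈ S, v f ≤ ∑ f ∈ S, w (g f) := Finset.sum_le_sum fun f hf => (hg f hf).2.2
    _ = ∑ i ∈ I, ∑ f ∈ S.filter (fun f => g f = i), w (g f) :=
        (Finset.sum_fiberwise_of_maps_to (fun f hf => (hg f hf).1) _).symm
    _ ≤ ∑ i ∈ I, ((A i).card : ℝ) * w i := by
        refine Finset.sum_le_sum fun i hi => ?_
        have h1 : ∑ f ∈ S.filter (fun f => g f = i), w (g f) =
            ∑ f ∈ S.filter (fun f => g f = i), w i := by
          refine Finset.sum_congr rfl fun f hf => ?_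
          rw [(Finset.mem_filter.mp hf).2]
        rw [h1, Finset.sum_const, nsmul_eq_mul]
        refine mul_le_mul_of_nonneg_right ?_ (hw i hi)
        have h2 : S.filter (fun f => g f = i) ⊆ A i := by
          intro f hf
          rw [Finset.mem_filter] at hf
          have := (hg f hf.1).2.1
          rw [hf.2] at this
          exact this
        exact_mod_cast Finset.card_le_card h2

lemma tendsto_L : Tendsto (fun X : ℕ => Real.log X) atTop atTop :=
  Real.tendsto_log_atTop.comp tendsto_natCast_atTop_atTop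

lemma omega_bound (C1 : ℕ) (δ : ℝ) (hδ : 0 < δ) : ∃ C : ℝ, 0 < C ∧ ∀ f : ℕ, 1 ≤ f →
    (C1 : ℝ) ^ f.primeFactors.card ≤ C * (f : ℝ) ^ δ := by
  obtain ⟨P0, hP0⟩ : ∃ P0 : ℕ, ∀ p ≥ P0, (C1 : ℝ) + 1 ≤ (p : ℝ) ^ δ := by
    have := (tendsto_rpow_atTop hδ).comp tendsto_natCast_atTop_atTop
    exact Filter.eventually_atTop.mp (this.eventually_ge_atTop _)
  have hc1 : (1 : ℝ) ≤ (C1 : ℝ) + 1 := by
    have : (0 : ℝ) ≤ C1 := Nat.cast_nonneg _
    linarith
  refine ⟨((C1 : ℝ) + 1) ^ P0, by positivity, fun f hf => ?_⟩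
  have h1 : (C1 : ℝ) ^ f.primeFactors.card ≤ ((C1 : ℝ) + 1) ^ f.primeFactors.card :=
    pow_le_pow_left₀ (by positivity) (by linarith) _
  refine h1.trans ?_
  have h2 : ((C1 : ℝ) + 1) ^ f.primeFactors.card = ∏ p ∈ f.primeFactors, ((C1 : ℝ) + 1) := by
    rw [Finset.prod_const]
  have h3 : ∏ p ∈ f.primeFactors, ((C1 : ℝ) + 1) ≤
      ∏ p ∈ f.primeFactors, ((if p < P0 then (C1 : ℝ) + 1 else 1) * (p : ℝ) ^ δ) := by
    refine Finset.prod_le_prod (fun p _ => by positivity) fun p hp => ?_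
    have hp1 : (1 : ℝ) ≤ (p : ℝ) := by exact_mod_cast (Nat.prime_of_mem_primeFactors hp).one_lt.le
    split_ifs with h
    · have : (1 : ℝ) ≤ (p : ℝ) ^ δ := Real.one_le_rpow hp1 hδ.le
      nlinarith
    · rw [one_mul]
      exact hP0 p (not_lt.mp h)
  rw [h2]
  refine h3.trans ?_
  rw [Finset.prod_mul_distrib, Real.finset_prod_rpow _ _ (fun p _ => Nat.cast_nonneg p)]
  have h4 : ∏ p ∈ f.primeFactors, (if p < P0 then (C1 : ℝ) + 1 else 1) ≤ ((C1 : ℝ) + 1) ^ P0 := by
    rw [← Finset.prod_filter, Finset.prod_const]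
    apply pow_le_pow_right₀ hc1
    calc (f.primeFactors.filter (fun p => p < P0)).card ≤ (Finset.range P0).card := by
          apply Finset.card_le_card
          intro p hp
          rw [Finset.mem_filter] at hp
          exact Finset.mem_range.mpr hp.2
      _ = P0 := Finset.card_range _
  have h5 : (∏ p ∈ f.primeFactors, (p : ℝ)) ≤ (f : ℝ) := by
    have h5a := Nat.le_of_dvd (by omega) (Nat.prod_primeFactors_dvd f)
    have h5b : ((∏ p ∈ f.primeFactors, p : ℕ) : ℝ) ≤ (f : ℝ) := by exact_mod_cast h5a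
    rwa [Nat.cast_prod] at h5b
  have h6 : (∏ p ∈ f.primeFactors, (p : ℝ)) ^ δ ≤ (f : ℝ) ^ δ :=
    Real.rpow_le_rpow (Finset.prod_nonneg fun p _ => Nat.cast_nonneg p) h5 hδ.le
  exact mul_le_mul h4 h6 (Real.rpow_nonneg (Finset.prod_nonneg fun p _ => Nat.cast_nonneg p) _)
    (by positivity)

lemma yA_le (a : ℝ) (X : ℕ) (h : 0 ≤ Real.log X) : (yA a X : ℝ) ≤ (Real.log X) ^ a / 4 :=
  Nat.floor_le (by positivity)

lemma le_yA (a : ℝ) (X : ℕ) : (Real.log X) ^ a / 4 - 1 < (yA a X : ℝ) := by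
  have := Nat.lt_floor_add_one ((Real.log X) ^ a / 4)
  unfold yA
  linarith

lemma tendsto_yA (a : ℝ) (ha : 2 < a) : Tendsto (yA a) atTop atTop := by
  have h1 : Tendsto (fun X : ℕ => (Real.log X) ^ a / 4) atTop atTop := by
    have := (tendsto_rpow_atTop (show 0 < a by linarith)).comp tendsto_L
    exact this.atTop_div_const (by norm_num)
  exact tendsto_nat_floor_atTop.comp h1

lemma tendsto_logyA (a : ℝ) (ha : 2 < a) : Tendsto (fun X : ℕ => Real.log (yA a X)) atTop atTop :=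
  Real.tendsto_log_atTop.comp (tendsto_natCast_atTop_atTop.comp (tendsto_yA a ha))

lemma logL_small (δ : ℝ) (hδ : 0 < δ) :
    ∀ᶠ X : ℕ in atTop, (Real.log (Real.log X)) ^ 2 ≤ δ * Real.log X := by
  have h1 := (Real.isLittleO_pow_log_id_atTop (n := 2)).def hδ
  have h2 := tendsto_L.eventually h1
  filter_upwards [h2, tendsto_L.eventually_ge_atTop 0] with X hX hL
  rw [Real.norm_of_nonneg (by positivity), id, Real.norm_of_nonneg hL] at hX
  exact hX

lemma logL_small' (K γ : ℝ) (hK : 0 < K) (hγ : 0 < γ) :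
    ∀ᶠ X : ℕ in atTop, K * Real.log (Real.log X) ≤ (Real.log X) ^ γ := by
  have h1 := (isLittleO_log_rpow_atTop hγ).def (show 0 < 1 / K by positivity)
  have h2 := tendsto_L.eventually h1
  filter_upwards [h2, tendsto_L.eventually_ge_atTop 1] with X hX hL
  rw [Real.norm_of_nonneg (Real.log_nonneg hL),
    Real.norm_of_nonneg (Real.rpow_nonneg (by linarith) _)] at hX
  rw [div_mul_eq_mul_div, one_mul, le_div_iff₀ hK] at hX
  linarith

lemma geom_bound (a : ℝ) (ha0 : 0 ≤ a) (ha : a ≤ 1 / 2) (n : ℕ) :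
    ∑ i ∈ Finset.range n, a ^ i ≤ 2 := by
  have h1 := geom_sum_mul_neg a n
  have h2 : 0 ≤ ∑ i ∈ Finset.range n, a ^ i := Finset.sum_nonneg fun i _ => by positivity
  have h3 : 0 ≤ a ^ n := by positivity
  nlinarith

lemma fac_bound (n : ℕ) : (n + 2).factorial ≤ 2 * (n + 2) ^ n := by
  induction n with
  | zero => simp
  | succ n ih =>
    have h1 : (n + 1 + 2).factorial = (n + 3) * (n + 2).factorial := by
      rw [show n + 1 + 2 = (n + 2) + 1 by ring, Nat.factorial_succ]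
    rw [h1]
    calc (n + 3) * (n + 2).factorial ≤ (n + 3) * (2 * (n + 2) ^ n) := Nat.mul_le_mul_left _ ih
      _ ≤ (n + 3) * (2 * (n + 3) ^ n) := by
          apply Nat.mul_le_mul_left
          apply Nat.mul_le_mul_left
          exact Nat.pow_le_pow_left (by omega) n
      _ = 2 * (n + 1 + 2) ^ (n + 1) := by rw [pow_succ]; ring

end CC7h

open CC7h in
/-- the bad f above (log y)^3 -/
theorem CC7_large (h5 : P_CC5) (β' : ℝ) (hβ' : 0 < β') (a : ℝ) (ha : 2 < a) (M : ℕ) (hM : 1 ≤ M)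
    (C1 : ℕ) (ε : ℝ) (hε : 0 < ε) : ∃ X0 : ℕ, ∀ X ≥ X0,
    ∑ f ∈ (Finset.Icc 1 X).filter
      (fun f => Squarefree f ∧ f.Coprime (2 * M) ∧ BadF β' M (yA a X) f ∧
        (Real.log (yA a X)) ^ 3 < (f : ℝ)),
    (C1 : ℝ) ^ f.primeFactors.card / f ≤ ε := by
  obtain ⟨C, C2, hC, hC2, y5, h5⟩ := h5 β' hβ' M hM
  obtain ⟨e', he0, he4, hea⟩ : ∃ e' : ℝ, 0 < e' ∧ e' ≤ 1 / 4 ∧ 0 < a * (1 - e') / 2 - 1 := by
    have h1 : 0 < 1 - 2 / a := by
      rw [sub_pos, div_lt_one (by linarith)]; exact ha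
    refine ⟨min ((1 - 2 / a) / 2) (1 / 4), lt_min (by linarith) (by norm_num), min_le_right _ _, ?_⟩
    have h2 : min ((1 - 2 / a) / 2) (1 / 4) ≤ (1 - 2 / a) / 2 := min_le_left _ _
    have h3 : a * (1 - (1 - 2 / a) / 2) / 2 ≤ a * (1 - min ((1 - 2 / a) / 2) (1 / 4)) / 2 := by
      have : a * (1 - (1 - 2 / a) / 2) ≤ a * (1 - min ((1 - 2 / a) / 2) (1 / 4)) :=
        mul_le_mul_of_nonneg_left (by linarith) (by linarith)
      linarith
    have h4 : a * (1 - (1 - 2 / a) / 2) / 2 = (a + 2) / 4 := by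
      field_simp
      ring
    linarith
  obtain ⟨C', hC', hom⟩ := omega_bound C1 e' he0
  set β := 1 - e' with hβ
  set γ := a * β / 2 - 1 with hγ
  have hβ34 : 3 / 4 ≤ β := by rw [hβ]; linarith
  have hβ1 : β < 1 := by rw [hβ]; linarith
  rw [← Filter.eventually_atTop]
  have e1 : ∀ᶠ X : ℕ in atTop, 2 * C2 * (C * C') / ε + 1 ≤ Real.log (yA a X) :=
    (tendsto_logyA a ha).eventually_ge_atTop _
  filter_upwards [e1, logL_small (ε / (16 * C2 ^ 2 * (C * C') * a ^ 2)) (by positivity),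
    logL_small' (4 * C2 * a) γ (by positivity) hea,
    tendsto_L.eventually_ge_atTop 18, (tendsto_yA a ha).eventually_ge_atTop y5,
    (tendsto_yA a ha).eventually_ge_atTop 1] with
    X hly hs1 hs2 hL8 hy5 hy1
  set y := yA a X with hy
  set L := Real.log X with hLdef
  set l := Real.log y with hl
  have hy1' : (1 : ℝ) ≤ y := by exact_mod_cast hy1
  have hL0 : 0 < L := by linarith
  have hl1 : 1 ≤ l := by
    have : 0 ≤ 2 * C2 * (C * C') / ε := by positivity
    linarith
  have hl0 : 0 < l := by linarith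
  have hlogL : 0 < Real.log L := Real.log_pos (by linarith)
  have hlL : l ≤ a * Real.log L := by
    have h1 : (y : ℝ) ≤ L ^ a := by
      have := yA_le a X hL0.le
      have h2 : 0 ≤ L ^ a := by positivity
      linarith
    have h2 := Real.log_le_log (by linarith) h1
    rw [Real.log_rpow hL0] at h2
    exact h2
  -- the square root of 2y
  have hLa : (8 : ℝ) ≤ L ^ a := by
    calc (8 : ℝ) ≤ L ^ (2 : ℝ) := by
          rw [show (2 : ℝ) = ((2 : ℕ) : ℝ) by norm_num, Real.rpow_natCast]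
          nlinarith
      _ ≤ L ^ a := Real.rpow_le_rpow_of_exponent_le (by linarith) ha.le
  have hsq : L ^ (a / 2) / 2 ≤ (2 * y : ℝ) ^ (1 / 2 : ℝ) := by
    rw [← Real.sqrt_eq_rpow]
    apply Real.le_sqrt_of_sq_le
    have h1 := le_yA a X
    have h4 : (L ^ (a / 2) / 2) ^ 2 = L ^ a / 4 := by
      rw [div_pow, ← Real.rpow_natCast, ← Real.rpow_mul hL0.le]
      norm_num
    rw [h4]
    have h3 : L ^ a / 4 - 1 < (y : ℝ) := h1
    linarith
  set s := (2 * y : ℝ) ^ (1 / 2 : ℝ) with hs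
  have hs0 : 0 < s := by positivity
  have hspow : ∀ i : ℕ, (2 * y : ℝ) ^ ((i : ℝ) / 2) = s ^ i := by
    intro i
    rw [hs, ← Real.rpow_natCast, ← Real.rpow_mul (by positivity)]
    congr 1; ring
  have hs9 : (9 : ℝ) ≤ s := by
    refine le_trans ?_ hsq
    have : L ≤ L ^ (a / 2) := by
      calc L = L ^ (1 : ℝ) := (Real.rpow_one L).symm
        _ ≤ L ^ (a / 2) := Real.rpow_le_rpow_of_exponent_le (by linarith) (by linarith)
    linarith
  set sβ := s ^ β with hsβ
  have hsβ0 : 0 < sβ := by positivity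
  have hsβpow : ∀ i : ℕ, (s ^ i : ℝ) ^ β = sβ ^ i := by
    intro i
    rw [hsβ, ← Real.rpow_natCast, ← Real.rpow_natCast, ← Real.rpow_mul hs0.le,
      ← Real.rpow_mul hs0.le, mul_comm]
  have hsβL : L ^ (1 + γ) / 2 ≤ sβ := by
    have h1 : (L ^ (a / 2) / 2) ^ β ≤ sβ := Real.rpow_le_rpow (by positivity) hsq (by linarith)
    rw [Real.div_rpow (by positivity) (by norm_num), ← Real.rpow_mul hL0.le] at h1
    have h2 : a / 2 * β = 1 + γ := by rw [hγ]; ring
    rw [h2] at h1
    have h3 : (2 : ℝ) ^ β ≤ 2 := by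
      calc (2 : ℝ) ^ β ≤ 2 ^ (1 : ℝ) := Real.rpow_le_rpow_of_exponent_le (by norm_num) hβ1.le
        _ = 2 := Real.rpow_one 2
    refine le_trans ?_ h1
    exact div_le_div_of_nonneg_left (by positivity) (by positivity) h3
  have hLγ : L ^ (1 + γ) = L * L ^ γ := by
    rw [Real.rpow_add hL0, Real.rpow_one]
  have hγ1 : 1 ≤ L ^ γ := Real.one_le_rpow (by linarith) hea.le
  set I := ⌊L⌋₊ with hI
  have hIL : (I : ℝ) ≤ L := Nat.floor_le hL0.le
  have hIL' : L - 1 < I := by
    have := Nat.lt_floor_add_one L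
    linarith
  -- X ≤ s ^ I
  have hXs : (X : ℝ) ≤ s ^ I := by
    have hX0 : (0 : ℝ) < X := by
      rcases Nat.eq_zero_or_pos X with h | h
      · exfalso
        rw [hLdef, h] at hL8
        simp at hL8
        linarith
      · exact_mod_cast h
    rw [← Real.log_le_log_iff hX0 (by positivity), Real.log_pow]
    have h1 : (2 : ℝ) ≤ Real.log s := by
      rw [Real.le_log_iff_exp_le hs0]
      refine le_trans ?_ hs9
      have := Real.exp_one_lt_d9
      have h3 : Real.exp 2 = Real.exp 1 * Real.exp 1 := by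
        rw [← Real.exp_add]; norm_num
      rw [h3]
      have h4 := Real.exp_pos 1
      nlinarith
    have h2 : L = Real.log X := rfl
    rw [← h2]
    nlinarith
  have hv : ∀ f : ℕ, 1 ≤ f → (C1 : ℝ) ^ f.primeFactors.card / f ≤ C' / (f : ℝ) ^ β := by
    intro f hf
    have hf0 : (0 : ℝ) < f := by exact_mod_cast hf
    have h1 := hom f hf
    have h2 : (f : ℝ) = (f : ℝ) ^ e' * (f : ℝ) ^ β := by
      rw [← Real.rpow_add hf0, hβ]
      simp
    rw [div_le_div_iff₀ hf0 (by positivity)]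
    calc (C1 : ℝ) ^ f.primeFactors.card * (f : ℝ) ^ β ≤ C' * (f : ℝ) ^ e' * (f : ℝ) ^ β :=
          mul_le_mul_of_nonneg_right h1 (by positivity)
      _ = C' * f := by rw [mul_assoc, ← h2]
  set A : ℕ → Finset ℕ := fun i => (Finset.Icc 1 ⌊((2 * y : ℝ)) ^ ((i : ℝ) / 2)⌋₊).filter
    (fun f => Squarefree f ∧ f.Coprime (2 * M) ∧ BadF β' M y f) with hA
  set w : ℕ → ℝ := fun i => if i = 1 then C' / l ^ 2 else C' / sβ ^ (i - 1) with hw
  have hcov := cover ((Finset.Icc 1 X).filter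
    (fun f => Squarefree f ∧ f.Coprime (2 * M) ∧ BadF β' M y f ∧ l ^ 3 < (f : ℝ)))
    (Finset.Icc 1 I) A
    (fun f => (C1 : ℝ) ^ f.primeFactors.card / f) w (by
      intro i _
      simp only [hw]
      split_ifs <;> positivity) (by
      intro f hf
      rw [Finset.mem_filter, Finset.mem_Icc] at hf
      obtain ⟨⟨hf1, hfX⟩, hsf, hcop, hbad, hlt⟩ := hf
      have hf1' : (1 : ℝ) ≤ f := by exact_mod_cast hf1
      have hex : ∃ i : ℕ, 1 ≤ i ∧ (f : ℝ) ≤ s ^ i := by
        refine ⟨I, ?_, ?_⟩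
        · rw [hI]; exact Nat.le_floor (by push_cast; linarith)
        · exact le_trans (by exact_mod_cast hfX) hXs
      obtain ⟨hi1, hi2⟩ := Nat.find_spec hex
      set i := Nat.find hex with hi
      have hiI : i ≤ I := Nat.find_min' hex ⟨by rw [hI]; exact Nat.le_floor (by push_cast; linarith),
        le_trans (by exact_mod_cast hfX) hXs⟩
      refine ⟨i, Finset.mem_Icc.mpr ⟨hi1, hiI⟩, ?_, ?_⟩
      · simp only [hA]
        rw [Finset.mem_filter, Finset.mem_Icc]
        refine ⟨⟨hf1, ?_⟩, hsf, hcop, hbad⟩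
        apply Nat.le_floor
        rw [hspow]; exact hi2
      · refine (hv f hf1).trans ?_
        simp only [hw]
        split_ifs with h
        · apply div_le_div_of_nonneg_left hC'.le (by positivity)
          calc l ^ 2 = (l ^ 3) ^ (2 / 3 : ℝ) := by
                rw [← Real.rpow_natCast, ← Real.rpow_natCast, ← Real.rpow_mul hl0.le]
                norm_num
            _ ≤ (f : ℝ) ^ (2 / 3 : ℝ) := Real.rpow_le_rpow (by positivity) hlt.le (by norm_num)
            _ ≤ (f : ℝ) ^ β := Real.rpow_le_rpow_of_exponent_le hf1' (by linarith)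
        · apply div_le_div_of_nonneg_left hC'.le (by positivity)
          have hmin := Nat.find_min hex (m := i - 1) (by omega)
          have hlt : s ^ (i - 1) < (f : ℝ) := by
            by_contra hlt
            push Not at hlt
            exact hmin ⟨by omega, hlt⟩
          rw [← hsβpow]
          exact Real.rpow_le_rpow (by positivity) hlt.le (by linarith))
  refine hcov.trans ?_
  -- bound of the terms
  set q := C2 * l * L / sβ with hq
  have hq0 : 0 ≤ q := by positivity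
  have hqa : q ≤ 1 / 2 := by
    rw [hq, div_le_iff₀ hsβ0]
    have h1 : 4 * C2 * a * Real.log L ≤ L ^ γ := hs2
    have h2 : 4 * C2 * l ≤ L ^ γ := by
      have := mul_le_mul_of_nonneg_left hlL (by positivity : 0 ≤ 4 * C2)
      linarith
    have h3 : L * (4 * C2 * l) ≤ L * L ^ γ := mul_le_mul_of_nonneg_left h2 hL0.le
    rw [← hLγ] at h3
    linarith
  have hterm : ∀ i ∈ Finset.Icc 1 I, ((A i).card : ℝ) * w i ≤
      (if i = 1 then C2 * (C * C') / l else 0) +
        (if i = 1 then 0 else 2 * C2 ^ 2 * (C * C') * l ^ 2 / sβ * q ^ (i - 2)) := by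
    intro i hi
    rw [Finset.mem_Icc] at hi
    have hcard := h5 y hy5 i hi.1
    have hw0 : 0 ≤ w i := by
      simp only [hw]
      split_ifs <;> positivity
    refine (mul_le_mul_of_nonneg_right hcard hw0).trans ?_
    by_cases h : i = 1
    · rw [if_pos h, if_pos h]
      simp only [hw]
      rw [if_pos h, h]
      simp only [Nat.factorial_one, Nat.cast_one, mul_one, pow_one, add_zero]
      apply le_of_eq
      show C * (C2 * l) * (C' / l ^ 2) = _
      field_simp
    · rw [if_neg h, if_neg h, zero_add]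
      simp only [hw]
      rw [if_neg h]
      obtain ⟨n, rfl⟩ : ∃ n, i = n + 2 := ⟨i - 2, by omega⟩
      have hn1 : n + 2 - 1 = n + 1 := by omega
      rw [hn1, Nat.add_sub_cancel]
      have hfac : ((n + 2).factorial : ℝ) ≤ 2 * L ^ n := by
        calc ((n + 2).factorial : ℝ) ≤ 2 * ((n + 2 : ℕ) : ℝ) ^ n := by
              exact_mod_cast fac_bound n
          _ ≤ 2 * L ^ n := by
              apply mul_le_mul_of_nonneg_left _ (by norm_num)
              apply pow_le_pow_left₀ (by positivity)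
              refine le_trans ?_ hIL
              exact_mod_cast hi.2
      calc C * ((n + 2).factorial : ℝ) * (C2 * l) ^ (n + 2) * (C' / sβ ^ (n + 1))
          ≤ C * (2 * L ^ n) * (C2 * l) ^ (n + 2) * (C' / sβ ^ (n + 1)) := by
            apply mul_le_mul_of_nonneg_right _ (by positivity)
            apply mul_le_mul_of_nonneg_right _ (by positivity)
            exact mul_le_mul_of_nonneg_left hfac hC.le
        _ = 2 * C2 ^ 2 * (C * C') * l ^ 2 / sβ * q ^ n := by
            rw [hq, div_pow, mul_pow, mul_pow, mul_pow, pow_add, pow_add, pow_succ sβ n]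
            field_simp
  refine (Finset.sum_le_sum hterm).trans ?_
  rw [Finset.sum_add_distrib]
  have hp1 : ∑ i ∈ Finset.Icc 1 I, (if i = 1 then C2 * (C * C') / l else 0) ≤ ε / 2 := by
    rw [Finset.sum_ite_eq' (Finset.Icc 1 I) 1]
    split_ifs
    · rw [div_le_div_iff₀ (by positivity) (by norm_num)]
      have h2 : 2 * C2 * (C * C') / ε ≤ l := by linarith
      rw [div_le_iff₀ hε] at h2
      linarith
    · positivity
  have hp2 : ∑ i ∈ Finset.Icc 1 I, (if i = 1 then 0 else 2 * C2 ^ 2 * (C * C') * l ^ 2 / sβ * q ^ (i - 2)) ≤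
      ε / 2 := by
    have h1 : ∑ i ∈ Finset.Icc 1 I, (if i = 1 then 0 else 2 * C2 ^ 2 * (C * C') * l ^ 2 / sβ * q ^ (i - 2)) ≤
        ∑ i ∈ Finset.range I, 2 * C2 ^ 2 * (C * C') * l ^ 2 / sβ * q ^ i := by
      rw [← Finset.sum_filter_not_add_sum_filter (Finset.Icc 1 I) (fun i => i = 1)]
      have h3 : ∑ i ∈ (Finset.Icc 1 I).filter (fun i => i = 1),
          (if i = 1 then 0 else 2 * C2 ^ 2 * (C * C') * l ^ 2 / sβ * q ^ (i - 2)) = 0 := by
        apply Finset.sum_eq_zero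
        intro i hi
        rw [if_pos (Finset.mem_filter.mp hi).2]
      rw [h3, add_zero]
      have h4 : ∑ i ∈ (Finset.Icc 1 I).filter (fun i => ¬ i = 1),
          (if i = 1 then 0 else 2 * C2 ^ 2 * (C * C') * l ^ 2 / sβ * q ^ (i - 2)) =
          ∑ i ∈ (Finset.Icc 1 I).filter (fun i => ¬ i = 1), 2 * C2 ^ 2 * (C * C') * l ^ 2 / sβ * q ^ (i - 2) := by
        refine Finset.sum_congr rfl fun i hi => ?_
        rw [if_neg (Finset.mem_filter.mp hi).2]
      rw [h4, ← Finset.sum_image (s := (Finset.Icc 1 I).filter (fun i => ¬ i = 1))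
        (g := fun i => i - 2) (f := fun i => 2 * C2 ^ 2 * (C * C') * l ^ 2 / sβ * q ^ i) ?_]
      · apply Finset.sum_le_sum_of_subset_of_nonneg
        · intro i hi
          rw [Finset.mem_image] at hi
          obtain ⟨k, hk, rfl⟩ := hi
          rw [Finset.mem_filter, Finset.mem_Icc] at hk
          rw [Finset.mem_range]
          omega
        · intro i _ _; positivity
      · intro i hi k hk hik
        rw [Finset.mem_coe, Finset.mem_filter, Finset.mem_Icc] at hi hk
        simp only at hik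
        omega
    refine h1.trans ?_
    rw [← Finset.mul_sum]
    have h2 := geom_bound q hq0 hqa I
    have h3 : 2 * C2 ^ 2 * (C * C') * l ^ 2 / sβ * ∑ i ∈ Finset.range I, q ^ i ≤
        2 * C2 ^ 2 * (C * C') * l ^ 2 / sβ * 2 :=
      mul_le_mul_of_nonneg_left h2 (by positivity)
    refine h3.trans ?_
    rw [div_mul_eq_mul_div, div_le_iff₀ hsβ0]
    have hl2 : l ^ 2 ≤ a ^ 2 * (Real.log L) ^ 2 := by
      rw [← mul_pow]
      exact pow_le_pow_left₀ hl0.le hlL 2
    have h5 : Real.log L ^ 2 ≤ ε / (16 * C2 ^ 2 * (C * C') * a ^ 2) * L := hs1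
    have h6 : l ^ 2 ≤ ε / (16 * C2 ^ 2 * (C * C')) * L := by
      refine hl2.trans ?_
      have h7 : a ^ 2 * Real.log L ^ 2 ≤ a ^ 2 * (ε / (16 * C2 ^ 2 * (C * C') * a ^ 2) * L) :=
        mul_le_mul_of_nonneg_left h5 (by positivity)
      refine h7.trans (le_of_eq ?_)
      have : a ≠ 0 := by linarith
      field_simp
    have h7 : 4 * C2 ^ 2 * (C * C') * l ^ 2 ≤ 4 * C2 ^ 2 * (C * C') * (ε / (16 * C2 ^ 2 * (C * C')) * L) :=
      mul_le_mul_of_nonneg_left h6 (by positivity)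
    have h8 : 4 * C2 ^ 2 * (C * C') * (ε / (16 * C2 ^ 2 * (C * C')) * L) = ε / 4 * L := by
      field_simp
      norm_num
    have h9 : L ≤ 2 * sβ := by
      have : L * 1 ≤ L * L ^ γ := mul_le_mul_of_nonneg_left hγ1 hL0.le
      rw [← hLγ] at this
      linarith
    have h10 : ε / 4 * L ≤ ε / 4 * (2 * sβ) := mul_le_mul_of_nonneg_left h9 (by positivity)
    calc 2 * C2 ^ 2 * (C * C') * l ^ 2 * 2 = 4 * C2 ^ 2 * (C * C') * l ^ 2 := by ring
      _ ≤ 4 * C2 ^ 2 * (C * C') * (ε / (16 * C2 ^ 2 * (C * C')) * L) := h7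
      _ = ε / 4 * L := h8
      _ ≤ ε / 4 * (2 * sβ) := h10
      _ = ε / 2 * sβ := by ring
  linarith

theorem BadF_mono {β β' : ℝ} (h : β ≤ β') {M y f : ℕ} (hb : BadF β' M y f) : BadF β M y f := by
  obtain ⟨ψ, h1, h2⟩ := hb
  exact ⟨ψ, h1, lt_of_le_of_lt (mul_le_mul_of_nonneg_right h (Nat.cast_nonneg _)) h2⟩

open CC7h in
theorem T2_CC7 : P_CC5 → P_CC6 → P_CC8 → P2_CC7 := by
  intro h5 h6 h8 a ha M hM C1 ε hε
  obtain ⟨K0, hK0, y8, h8⟩ := h8 M hM
  obtain ⟨C', hC', hom⟩ := omega_bound C1 (1 / 2) (by norm_num)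
  set F : ℕ := ⌈(2 * K0 * C' / ε) ^ 2⌉₊ + 1 with hF
  obtain ⟨β, hβ1, hβ2, y6, h6⟩ := h6 M hM F
  obtain ⟨X5, hX5⟩ := CC7_large h5 β (by linarith) a ha M hM C1 (ε / 2) (by positivity)
  refine ⟨β, hβ1, hβ2, ?_⟩
  rw [← Filter.eventually_atTop]
  filter_upwards [eventually_ge_atTop X5, (tendsto_yA a ha).eventually_ge_atTop y8,
    (tendsto_yA a ha).eventually_ge_atTop y6] with X h1 h2 h3
  have hlarge := hX5 X h1
  set l := Real.log (yA a X) with hl
  set v : ℕ → ℝ := fun f => (C1 : ℝ) ^ f.primeFactors.card / f with hv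
  set S := (Finset.Icc 1 X).filter
    (fun f => Squarefree f ∧ f.Coprime (2 * M) ∧ BadF β M (yA a X) f) with hS
  have hsplit : ∑ f ∈ S, v f = ∑ f ∈ S.filter (fun f : ℕ => l ^ 3 < (f : ℝ)), v f +
      ∑ f ∈ S.filter (fun f : ℕ => ¬ l ^ 3 < (f : ℝ)), v f :=
    (Finset.sum_filter_add_sum_filter_not _ _ _).symm
  rw [hsplit]
  have e1 : S.filter (fun f : ℕ => l ^ 3 < (f : ℝ)) = (Finset.Icc 1 X).filter
      (fun f => Squarefree f ∧ f.Coprime (2 * M) ∧ BadF β M (yA a X) f ∧ l ^ 3 < (f : ℝ)) := by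
    rw [hS, Finset.filter_filter]
    refine Finset.filter_congr fun f _ => ?_
    tauto
  rw [e1]
  have hsmall : ∑ f ∈ S.filter (fun f : ℕ => ¬ l ^ 3 < (f : ℝ)), v f ≤ ε / 2 := by
    have hsF : 0 < √(F : ℝ) := Real.sqrt_pos.2 (by
      have : 1 ≤ F := by omega
      exact_mod_cast this)
    have hterm : ∀ f ∈ S.filter (fun f : ℕ => ¬ l ^ 3 < (f : ℝ)), v f ≤ C' / √(F : ℝ) := by
      intro f hf
      rw [Finset.mem_filter, hS, Finset.mem_filter, Finset.mem_Icc] at hf
      obtain ⟨⟨⟨hf1, hfX⟩, hsf, hcop, hbad⟩, hle⟩ := hf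
      have hfF : F < f := by
        by_contra hcon
        exact h6 (yA a X) h3 f hf1 (by omega) hsf hcop hbad
      have hf0 : (0 : ℝ) < f := by exact_mod_cast hf1
      have g1 := hom f hf1
      rw [← Real.sqrt_eq_rpow] at g1
      have g2 : √(F : ℝ) ≤ √(f : ℝ) := Real.sqrt_le_sqrt (by exact_mod_cast hfF.le)
      have g3 : √(f : ℝ) * √(f : ℝ) = f := Real.mul_self_sqrt hf0.le
      have g4 : 0 < √(f : ℝ) := Real.sqrt_pos.2 hf0
      calc v f ≤ C' * √(f : ℝ) / f := by
            simp only [hv]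
            exact div_le_div_of_nonneg_right g1 hf0.le
        _ = C' / √(f : ℝ) := by
            nth_rewrite 2 [← g3]
            field_simp
        _ ≤ C' / √(F : ℝ) := div_le_div_of_nonneg_left hC'.le hsF g2
    refine (Finset.sum_le_sum hterm).trans ?_
    rw [Finset.sum_const, nsmul_eq_mul]
    have hcard : ((S.filter (fun f : ℕ => ¬ l ^ 3 < (f : ℝ))).card : ℝ) ≤ K0 := by
      refine le_trans ?_ (h8 (yA a X) h2)
      have : S.filter (fun f : ℕ => ¬ l ^ 3 < (f : ℝ)) ⊆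
          (Finset.Icc 1 ⌊(Real.log (yA a X)) ^ 3⌋₊).filter
            (fun f => Squarefree f ∧ f.Coprime (2 * M) ∧ BadF (1 / 2) M (yA a X) f) := by
        intro f hf
        rw [Finset.mem_filter, hS, Finset.mem_filter, Finset.mem_Icc] at hf
        obtain ⟨⟨⟨hf1, hfX⟩, hsf, hcop, hbad⟩, hle⟩ := hf
        rw [Finset.mem_filter, Finset.mem_Icc]
        exact ⟨⟨hf1, Nat.le_floor (not_lt.1 hle)⟩, hsf, hcop, BadF_mono hβ1 hbad⟩
      exact_mod_cast Finset.card_le_card this
    calc ((S.filter (fun f : ℕ => ¬ l ^ 3 < (f : ℝ))).card : ℝ) * (C' / √(F : ℝ)) ≤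
          K0 * (C' / √(F : ℝ)) := mul_le_mul_of_nonneg_right hcard (by positivity)
      _ ≤ ε / 2 := by
          have g5 : 2 * K0 * C' / ε ≤ √(F : ℝ) := by
            apply Real.le_sqrt_of_sq_le
            have := Nat.le_ceil ((2 * K0 * C' / ε) ^ 2)
            rw [hF]
            push_cast
            linarith
          rw [div_le_iff₀ hε] at g5
          rw [← mul_div_assoc, div_le_iff₀ hsF]
          linarith
  linarith

end Pool.Agent.N71.PS
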