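import Pool.Agent.N71.PS.Stubs
import Pool.Agent.H38R2.CG.MLOW

/-!
# MLOW: enough ideals for almost all D, in the weighted sense
-/

set_option autoImplicit false

namespace Pool.Agent.N71.PS

open Finset Filter NumberField Pool.Agent.H38R2.CG Pool.Agent.H38R2.CG2
open scoped Classical

variable [PSet]

namespace MLOWh

open Pool.Agent.H38R2.CG.MLOWh

lemma second_moment_w (S : Finset ℕ) (w : ℕ → ℝ) (hw : ∀ D ∈ S, 0 ≤ w D) (P : Finset ℕ)
    (hP : ∀ p ∈ P, p.Prime) (E : ℝ) (hE : 0 ≤ E)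
    (hc : ∀ p ∈ P, ∀ q ∈ P, p ≠ q →
      |∑ D ∈ S, w D * ((jacobiSym (D : ℤ) (p * q) : ℤ) : ℝ)| ≤ E) :
    ∑ D ∈ S, w D * (TT P D : ℝ) ^ 2 ≤ (P.card : ℝ) * ∑ D ∈ S, w D + (P.card : ℝ) ^ 2 * E := by
  have h1 : ∀ D : ℕ, (TT P D : ℝ) ^ 2 =
      ∑ p ∈ P, ∑ q ∈ P, (((jacobiSym (D : ℤ) p : ℤ) : ℝ) * ((jacobiSym (D : ℤ) q : ℤ) : ℝ)) := by
    intro D
    rw [TT, sq]
    push_cast
    rw [Finset.sum_mul_sum]
  have h2 : ∑ D ∈ S, w D * (TT P D : ℝ) ^ 2 =
      ∑ p ∈ P, ∑ q ∈ P, ∑ D ∈ S, w D *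
        (((jacobiSym (D : ℤ) p : ℤ) : ℝ) * ((jacobiSym (D : ℤ) q : ℤ) : ℝ)) := by
    have : ∀ D ∈ S, w D * (TT P D : ℝ) ^ 2 = ∑ p ∈ P, ∑ q ∈ P, w D *
        (((jacobiSym (D : ℤ) p : ℤ) : ℝ) * ((jacobiSym (D : ℤ) q : ℤ) : ℝ)) := by
      intro D _
      rw [h1, Finset.mul_sum]
      refine Finset.sum_congr rfl fun p _ => ?_
      rw [Finset.mul_sum]
    rw [Finset.sum_congr rfl this, Finset.sum_comm]
    refine Finset.sum_congr rfl fun p _ => ?_
    rw [Finset.sum_comm]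
  rw [h2]
  have hS0 : 0 ≤ ∑ D ∈ S, w D := Finset.sum_nonneg hw
  have h3 : ∀ p ∈ P, ∀ q ∈ P, ∑ D ∈ S, w D *
        (((jacobiSym (D : ℤ) p : ℤ) : ℝ) * ((jacobiSym (D : ℤ) q : ℤ) : ℝ)) ≤
      (if p = q then ∑ D ∈ S, w D else 0) + E := by
    intro p hp q hq
    by_cases hpq : p = q
    · subst hpq
      rw [if_pos rfl]
      have h4 : ∑ D ∈ S, w D *
        (((jacobiSym (D : ℤ) p : ℤ) : ℝ) * ((jacobiSym (D : ℤ) p : ℤ) : ℝ)) ≤
          ∑ D ∈ S, w D := by
        refine Finset.sum_le_sum fun D hD => ?_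
        have h := hw D hD
        rcases jacobiSym.trichotomy (D : ℤ) p with h' | h' | h' <;> rw [h'] <;> simp [h]
      linarith
    · rw [if_neg hpq, zero_add]
      refine le_trans (le_abs_self _) (le_trans (le_of_eq ?_) (hc p hp q hq hpq))
      congr 1
      refine Finset.sum_congr rfl fun D _ => ?_
      have : NeZero p := ⟨(hP p hp).ne_zero⟩
      have : NeZero q := ⟨(hP q hq).ne_zero⟩
      rw [jacobiSym.mul_right]
      push_cast
      ring
  calc _ ≤ ∑ p ∈ P, ∑ q ∈ P, ((if p = q then ∑ D ∈ S, w D else 0) + E) :=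
        Finset.sum_le_sum fun p hp => Finset.sum_le_sum fun q hq => h3 p hp q hq
    _ = ∑ p ∈ P, (∑ D ∈ S, w D + P.card * E) := by
        refine Finset.sum_congr rfl fun p hp => ?_
        rw [Finset.sum_add_distrib, Finset.sum_ite_eq, if_pos hp]
        simp
    _ = _ := by
        rw [Finset.sum_const, nsmul_eq_mul]; ring

lemma chebyshev_w (S : Finset ℕ) (w : ℕ → ℝ) (hw : ∀ D ∈ S, 0 ≤ w D) (P : Finset ℕ)
    (θ : ℝ) (hθ : 0 < θ) :
    (∑ D ∈ S.filter (fun D => θ ≤ |(TT P D : ℝ)|), w D) * θ ^ 2 ≤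
      ∑ D ∈ S, w D * (TT P D : ℝ) ^ 2 := by
  rw [Finset.sum_mul]
  calc ∑ D ∈ S.filter (fun D => θ ≤ |(TT P D : ℝ)|), w D * θ ^ 2
      ≤ ∑ D ∈ S.filter (fun D => θ ≤ |(TT P D : ℝ)|), w D * (TT P D : ℝ) ^ 2 := by
        refine Finset.sum_le_sum fun D hD => ?_
        have h1 := (Finset.mem_filter.1 hD).2
        apply mul_le_mul_of_nonneg_left _ (hw D (Finset.mem_filter.1 hD).1)
        rw [← sq_abs (TT P D : ℝ)]
        exact pow_le_pow_left₀ hθ.le h1 2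
    _ ≤ _ := Finset.sum_le_sum_of_subset_of_nonneg (Finset.filter_subset _ _)
        fun D hD _ => mul_nonneg (hw D hD) (sq_nonneg _)

/-- powers beat logarithms -/
lemma pow_log (c δ : ℝ) (hc : 0 < c) (hδ : 0 < δ) (C0 : ℕ) :
    ∀ᶠ X : ℕ in atTop, (X : ℝ) ^ (1 - δ) ≤ c * X * ((Real.log X) ^ C0)⁻¹ := by
  have h1 := (isLittleO_log_rpow_rpow_atTop (C0 : ℝ) hδ).comp_tendsto
    (tendsto_natCast_atTop_atTop (R := ℝ))
  have h2 := h1.def hc
  filter_upwards [h2, eventually_ge_atTop 3] with X hX h3X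
  simp only [Function.comp_apply, Real.norm_eq_abs] at hX
  have hX1 : (1 : ℝ) < X := by
    have : (3 : ℝ) ≤ X := by exact_mod_cast h3X
    linarith
  have hX0 : (0 : ℝ) < X := by linarith
  have hL : 0 < Real.log (X : ℝ) := Real.log_pos hX1
  rw [abs_of_nonneg (by positivity), abs_of_nonneg (by positivity), Real.rpow_natCast] at hX
  have hLp : 0 < (Real.log (X : ℝ)) ^ C0 := by positivity
  rw [← div_eq_mul_inv, le_div_iff₀ hLp]
  have h5 : (X : ℝ) ^ (1 - δ) * (X : ℝ) ^ δ = X := by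
    rw [← Real.rpow_add hX0]
    simp
  calc (X : ℝ) ^ (1 - δ) * (Real.log X) ^ C0 ≤ (X : ℝ) ^ (1 - δ) * (c * (X : ℝ) ^ δ) := by
        gcongr
    _ = c * ((X : ℝ) ^ (1 - δ) * (X : ℝ) ^ δ) := by ring
    _ = c * X := by rw [h5]

lemma cc_bounds (a : ℝ) (ha : 2 < a) : 0 < cc a ∧ cc a < 1 / 32 := by
  unfold cc
  constructor
  · apply div_pos <;> nlinarith
  · rw [div_lt_div_iff₀ (by nlinarith) (by norm_num)]
    nlinarith

/-- numerical facts for large `X` -/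
lemma facts (hNB : P2_NB) (a : ℝ) (ha : 2 < a) (z r : ℕ) (hr : r < Qz z) (η : ℝ) (hη : 0 < η)
    (C0 : ℕ) (ε : ℝ) (hε : 0 < ε) :
    ∀ᶠ X : ℕ in atTop, 3 ≤ X ∧ z ≤ yA a X ∧ 3 ≤ yA a X ∧
      32 * (kA a X : ℝ) ^ 2 ≤ ε ^ 3 * (PA a X).card ∧
      4 * (kA a X) ^ 2 ≤ (PA a X).card ∧
      (2 * (yA a X : ℝ)) ^ 2 ≤ X ∧
      2 * (X : ℝ) ^ (cc a) + (PA a X).card * (X : ℝ) ^ (1 - cc a) ≤
        η * X / Qz z * ((Real.log X) ^ C0)⁻¹ := by
  obtain ⟨hc0, hc1⟩ := cc_bounds a ha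
  have hQ : 0 < Qz z := lt_of_le_of_lt (Nat.zero_le _) hr
  have hQR : (0 : ℝ) < Qz z := by exact_mod_cast hQ
  obtain ⟨X0, hX0⟩ := hNB a ha (cc a / 2) (by linarith)
  have hlog : Tendsto (fun X : ℕ => Real.log X) atTop atTop :=
    Real.tendsto_log_atTop.comp tendsto_natCast_atTop_atTop
  have hpl := pow_log (η / Qz z / 4) (cc a / 2) (by positivity) (by linarith) C0
  have hL2 : ∀ᶠ X : ℕ in atTop, (Real.log X) ^ (-((a - 2) / 2)) ≤ ε ^ 3 / 32 := by
    have h1 : Tendsto (fun x : ℝ => x ^ (-((a - 2) / 2))) atTop (nhds 0) :=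
      tendsto_rpow_neg_atTop (by linarith)
    exact (h1.comp hlog).eventually_le_const (by positivity)
  filter_upwards [eventually_ge_atTop X0, eventually_ge_atTop (16 ^ 2), hpl, hL2,
    hlog.eventually_ge_atTop (4 * z + 16)] with X h0 h16 h1 h2 h3
  obtain ⟨n1, -, -, -, -, n6, n7, n8⟩ := hX0 X h0
  set L := Real.log (X : ℝ) with hL
  have hz0 : (0 : ℝ) ≤ z := Nat.cast_nonneg _
  have hL16 : 16 ≤ L := by linarith
  have hXR : (16 ^ 2 : ℝ) ≤ X := by exact_mod_cast h16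
  have hXpos : (0 : ℝ) < X := by linarith
  have hyge : L ^ a / 4 < (yA a X : ℝ) + 1 := by
    unfold yA
    exact Nat.lt_floor_add_one _
  have hLa : L ^ 2 ≤ L ^ a := by
    rw [← Real.rpow_two]
    exact Real.rpow_le_rpow_of_exponent_le (by linarith) ha.le
  have hy1 : (z : ℝ) + 3 ≤ yA a X := by
    have : 4 * z + 16 ≤ L ^ 2 / 1 := by nlinarith
    nlinarith
  have hz : z ≤ yA a X := by
    have : (z : ℝ) ≤ yA a X := by linarith
    exact_mod_cast this
  have hy3 : 3 ≤ yA a X := by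
    have : (3 : ℝ) ≤ yA a X := by linarith
    exact_mod_cast this
  refine ⟨by omega, hz, hy3, ?_, n7, ?_, ?_⟩
  · have h5 : (0 : ℝ) ≤ (PA a X).card := Nat.cast_nonneg _
    calc 32 * (kA a X : ℝ) ^ 2 ≤ 32 * (L ^ (-((a - 2) / 2)) * (PA a X).card) := by gcongr
      _ ≤ 32 * (ε ^ 3 / 32 * (PA a X).card) := by gcongr
      _ = _ := by ring
  · have h5 : (yA a X : ℝ) ≤ (X : ℝ) ^ ((1 : ℝ) / 4) :=
      n6.trans (Real.rpow_le_rpow_of_exponent_le (by linarith) (by linarith))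
    have h6 : (4 : ℝ) ≤ (X : ℝ) ^ ((1 : ℝ) / 2) := by
      rw [← Real.sqrt_eq_rpow]
      apply Real.le_sqrt_of_sq_le
      linarith
    have h7 : (X : ℝ) ^ ((1 : ℝ) / 2) * (X : ℝ) ^ ((1 : ℝ) / 2) = X := by
      rw [← Real.rpow_add hXpos]; norm_num
    have h8 : ((X : ℝ) ^ ((1 : ℝ) / 4)) ^ 2 = (X : ℝ) ^ ((1 : ℝ) / 2) := by
      rw [← Real.rpow_natCast, ← Real.rpow_mul hXpos.le]; norm_num
    calc (2 * (yA a X : ℝ)) ^ 2 ≤ (2 * (X : ℝ) ^ ((1 : ℝ) / 4)) ^ 2 := by gcongr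
      _ = 4 * (X : ℝ) ^ ((1 : ℝ) / 2) := by rw [mul_pow, h8]; norm_num
      _ ≤ (X : ℝ) ^ ((1 : ℝ) / 2) * (X : ℝ) ^ ((1 : ℝ) / 2) := by gcongr
      _ = X := h7
  · have h5 : (X : ℝ) ^ (cc a) ≤ (X : ℝ) ^ (1 - cc a / 2) :=
      Real.rpow_le_rpow_of_exponent_le (by linarith) (by linarith)
    have h6 : ((PA a X).card : ℝ) * (X : ℝ) ^ (1 - cc a) ≤ (X : ℝ) ^ (1 - cc a / 2) := by
      calc ((PA a X).card : ℝ) * (X : ℝ) ^ (1 - cc a) ≤
          (X : ℝ) ^ (cc a / 2) * (X : ℝ) ^ (1 - cc a) := by gcongr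
        _ = (X : ℝ) ^ (1 - cc a / 2) := by
          rw [← Real.rpow_add hXpos]; congr 1; ring
    calc 2 * (X : ℝ) ^ (cc a) + (PA a X).card * (X : ℝ) ^ (1 - cc a) ≤
        4 * (X : ℝ) ^ (1 - cc a / 2) := by
          have : 0 ≤ (X : ℝ) ^ (1 - cc a / 2) := by positivity
          linarith
      _ ≤ 4 * (η / Qz z / 4 * X * (L ^ C0)⁻¹) := by gcongr
      _ = _ := by ring

lemma main (hNB : P2_NB) (hWT : P2_WT) (hV0 : P2_V0) (hV1 : P2_V1)
    (a : ℝ) (ha : 2 < a) (z r : ℕ) (hF : FundRes z r) (η : ℝ) (hη : 0 < η) (hη1 : η ≤ 1)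
    (C0 : ℕ) (ε : ℝ) (hε : 0 < ε) (hε1 : ε ≤ 1) : ∀ᶠ X : ℕ in atTop, ∀ ρ : ℕ → ℝ,
    SWt z X (Pool.Agent.H38R2.CG2.PA a X) (cc a) C0 ρ →
    ∑ D ∈ (DD z r X η).filter (fun D => MD D (SA a X) (fun _ => 1) < (1 - ε) * NA a X), wt ρ D ≤
      ε * WW z X η ρ := by
  obtain ⟨hc0, hc1⟩ := cc_bounds a ha
  have hr : r < Qz z := hF.1
  obtain ⟨X1, hX1⟩ := hV1 a ha z r hF η hη hη1 C0
  filter_upwards [facts hNB a ha z r hr η hη C0 ε hε, eventually_ge_atTop X1] with X hX hXX1 ρ hρ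
  obtain ⟨hX3, hyz, hy2, hk32, hk4, hy4, hW⟩ := hX
  have hQ : 0 < Qz z := lt_of_le_of_lt (Nat.zero_le _) hr
  have hQR : (0 : ℝ) < Qz z := by exact_mod_cast hQ
  set L := Real.log (X : ℝ) with hLdef
  set y := yA a X with hy
  set k := kA a X with hk
  set P := PA a X with hPdef
  have hk1' : 1 ≤ k := by rw [hk]; unfold kA; omega
  have hk1 : (1 : ℝ) ≤ k := by exact_mod_cast hk1'
  have hmem : ∀ p ∈ P, p.Prime ∧ y < p ∧ p ≤ 2 * y := by
    intro p hp
    simp only [hPdef, PA, PP, Finset.mem_filter, Finset.mem_Ioc] at hp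
    exact ⟨hp.2.1, hp.1.1, hp.1.2⟩
  have hnd : ∀ p ∈ P, ¬ p ∣ Qz z := by
    intro p hp hdvd
    obtain ⟨hpp, hpy, _⟩ := hmem p hp
    unfold Qz at hdvd
    rcases (Nat.Prime.dvd_mul hpp).1 hdvd with h | h
    · have h2 : p ∣ 2 := by
        have : p ∣ 2 ^ 4 := by simpa using h
        exact hpp.dvd_of_dvd_pow this
      have := Nat.le_of_dvd (by norm_num) h2
      omega
    · obtain ⟨l, hl, hpl⟩ := (Prime.dvd_finsetProd_iff hpp.prime _).1 h
      have hl' := (Finset.mem_filter.1 hl).1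
      rw [Finset.mem_Icc] at hl'
      have h2 : p ∣ l := hpp.dvd_of_dvd_pow hpl
      have := Nat.le_of_dvd (by omega) h2
      omega
  have hyR : (3 : ℝ) ≤ y := by exact_mod_cast hy2
  have hPpos' : 0 < P.card := by
    have : 1 ≤ k ^ 2 := Nat.one_le_pow _ _ hk1'
    omega
  have hpipos : (0 : ℝ) < P.card := by exact_mod_cast hPpos'
  have hXR : (3 : ℝ) ≤ X := by exact_mod_cast hX3
  have hX0 : (0 : ℝ) < X := by linarith
  set W := WW z X η ρ with hWdef
  have hWlow : 2 * (X : ℝ) ^ (cc a) + P.card * (X : ℝ) ^ (1 - cc a) ≤ W := by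
    refine hW.trans ?_
    rw [hWdef, WW]
    have := hρ.low
    gcongr
  have hWpos : 0 < W := by
    have h1 : 0 < (X : ℝ) ^ (cc a) := by positivity
    have h2 : 0 ≤ (P.card : ℝ) * (X : ℝ) ^ (1 - cc a) := by positivity
    linarith
  have hD1 : ∀ D ∈ DD z r X η, X < D := by
    intro D hD
    unfold DD at hD
    rw [Finset.mem_filter, Finset.mem_Ioc] at hD
    exact hD.1.1
  have hw : ∀ D ∈ DD z r X η, 0 ≤ wt ρ D := fun D hD =>
    (hWT z X (Pool.Agent.H38R2.CG2.PA a X) (cc a) C0 ρ (by omega) (by linarith) hρ D (by have := hD1 D hD; omega)).1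
  have hsumw : ∑ D ∈ DD z r X η, wt ρ D ≤ W + 2 * (X : ℝ) ^ (cc a) := by
    have h1 := hV0 z r X η (Pool.Agent.H38R2.CG2.PA a X) (cc a) C0 ρ 1 hr hη (by omega) (by linarith) hρ le_rfl
      (Nat.coprime_one_left _)
    have h2 : (DD z r X η).filter (fun D => 1 ∣ D) = DD z r X η := by
      apply Finset.filter_true_of_mem
      intro D _
      exact one_dvd D
    have h3 : η * X / Qz z * ∑ d ∈ Finset.Icc 1 X, ρ d / (Nat.lcm d 1 : ℝ) = W := by
      rw [hWdef, WW, GG]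
      simp
    rw [h2, h3] at h1
    have := le_of_abs_le h1
    linarith
  set θ : ℝ := P.card * ε / (4 * k) with hθ
  have hθpos : 0 < θ := by positivity
  -- the bad set
  have hcross : ∀ p ∈ P, ∀ q ∈ P, p ≠ q →
      |∑ D ∈ DD z r X η, wt ρ D * ((jacobiSym (D : ℤ) (p * q) : ℤ) : ℝ)| ≤
        (X : ℝ) ^ (1 - cc a) := by
    intro p hp q hq hpq
    obtain ⟨hp1, hp2, hp3⟩ := hmem p hp
    obtain ⟨hq1, hq2, hq3⟩ := hmem q hq
    refine (hX1 X hXX1 ρ hρ (p * q) (Nat.mul_pos hp1.pos hq1.pos) ?_ ?_).1 ?_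
    · apply Nat.Coprime.mul_left
      · exact (Nat.Prime.coprime_iff_not_dvd hp1).2 (hnd p hp)
      · exact (Nat.Prime.coprime_iff_not_dvd hq1).2 (hnd q hq)
    · rintro ⟨m, hm⟩
      have h1 : p ∣ m * m := by rw [← hm]; exact Dvd.intro _ rfl
      have h2 : p ∣ m := by
        rcases (Nat.Prime.dvd_mul hp1).1 h1 with h | h <;> exact h
      obtain ⟨m', rfl⟩ := h2
      have h3 : q = p * (m' * m') := by
        have h4 : p * q = p * (p * (m' * m')) := by rw [hm]; ring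
        exact Nat.eq_of_mul_eq_mul_left hp1.pos h4
      have h5 : p ∣ q := by rw [h3]; exact Dvd.intro _ rfl
      exact hpq ((Nat.prime_dvd_prime_iff_eq hp1 hq1).1 h5)
    · have h1 : ((p * q : ℕ) : ℝ) ≤ (2 * (y : ℝ)) ^ 2 := by
        push_cast
        have h2 : (p : ℝ) ≤ 2 * y := by exact_mod_cast hp3
        have h3 : (q : ℝ) ≤ 2 * y := by exact_mod_cast hq3
        rw [sq]
        gcongr
      refine h1.trans (hy4.trans ?_)
      calc (X : ℝ) = (X : ℝ) ^ (1 : ℝ) := (Real.rpow_one _).symm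
        _ ≤ _ := Real.rpow_le_rpow_of_exponent_le (by linarith) (by
          unfold th; linarith)
  have hsm := second_moment_w (DD z r X η) (wt ρ) hw P (fun p hp => (hmem p hp).1)
    ((X : ℝ) ^ (1 - cc a)) (by positivity) hcross
  have hcheb := chebyshev_w (DD z r X η) (wt ρ) hw P θ hθpos
  set b : ℝ := ∑ D ∈ (DD z r X η).filter (fun D => θ ≤ |(TT P D : ℝ)|), wt ρ D with hb
  have htot : b * θ ^ 2 ≤ 2 * P.card * W := by
    refine hcheb.trans (hsm.trans ?_)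
    calc (P.card : ℝ) * ∑ D ∈ DD z r X η, wt ρ D + (P.card : ℝ) ^ 2 * (X : ℝ) ^ (1 - cc a)
        ≤ (P.card : ℝ) * (W + 2 * (X : ℝ) ^ (cc a)) +
          (P.card : ℝ) ^ 2 * (X : ℝ) ^ (1 - cc a) := by gcongr
      _ = (P.card : ℝ) * W + P.card * (2 * (X : ℝ) ^ (cc a) +
          P.card * (X : ℝ) ^ (1 - cc a)) := by ring
      _ ≤ (P.card : ℝ) * W + P.card * W := by gcongr
      _ = _ := by ring
  have hbadcard : b ≤ ε * W := by
    have h3 : b * θ ^ 2 = b * ((P.card : ℝ) ^ 2 * ε ^ 2) / (16 * (k : ℝ) ^ 2) := by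
      rw [hθ]; field_simp; ring
    have h1 := htot
    rw [h3, div_le_iff₀ (by positivity)] at h1
    have h4 : b * (P.card : ℝ) * ε ^ 2 ≤ ε ^ 3 * P.card * W := by
      have h5 : (P.card : ℝ) * (b * (P.card : ℝ) * ε ^ 2) ≤
          (P.card : ℝ) * (32 * (k : ℝ) ^ 2 * W) := by
        calc (P.card : ℝ) * (b * (P.card : ℝ) * ε ^ 2) = b * ((P.card : ℝ) ^ 2 * ε ^ 2) := by ring
          _ ≤ 2 * P.card * W * (16 * (k : ℝ) ^ 2) := h1
          _ = _ := by ring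
      have h6 := le_of_mul_le_mul_left h5 hpipos
      have h7 : 32 * (k : ℝ) ^ 2 * W ≤ ε ^ 3 * P.card * W := by gcongr
      linarith
    have h5 : ((P.card : ℝ) * ε ^ 2) * b ≤ ((P.card : ℝ) * ε ^ 2) * (ε * W) := by
      calc ((P.card : ℝ) * ε ^ 2) * b = b * (P.card : ℝ) * ε ^ 2 := by ring
        _ ≤ ε ^ 3 * P.card * W := h4
        _ = _ := by ring
    exact le_of_mul_le_mul_left h5 (by positivity)
  refine le_trans ?_ hbadcard
  have hsub : (DD z r X η).filter (fun D => MD D (SA a X) (fun _ => 1) < (1 - ε) * NA a X) ⊆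
      (DD z r X η).filter (fun D => θ ≤ |(TT P D : ℝ)|) := by
    intro D hD
    rw [Finset.mem_filter] at hD ⊢
    refine ⟨hD.1, ?_⟩
    by_contra hlt
    push Not at hlt
    have hDD := hD.1
    simp only [DD, Finset.mem_filter, Finset.mem_Ioc] at hDD
    have hDX : X < D := hDD.1.1
    have hDle : (D : ℝ) ≤ 2 * X := by
      have h1 : (D : ℝ) ≤ (⌊(1 + η) * X⌋₊ : ℝ) := by exact_mod_cast hDD.1.2
      have h2 : (⌊(1 + η) * X⌋₊ : ℝ) ≤ (1 + η) * X := Nat.floor_le (by positivity)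
      have h3 : (0 : ℝ) ≤ X := Nat.cast_nonneg _
      nlinarith
    apply absurd hD.2
    push Not
    set S := (P.filter (fun p => jacobiSym (D : ℤ) p = 1)).card with hS
    set R := (P.filter (fun p => jacobiSym (D : ℤ) p = 0)).card with hR
    have hcount := split_count P D
    rw [← hS, ← hR] at hcount
    have hcountR : 2 * (S : ℝ) = P.card - R + (TT P D : ℝ) := by exact_mod_cast hcount
    have hram := ramified P y D (fun p hp => ⟨(hmem p hp).1, (hmem p hp).2.1⟩) (by omega)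
    rw [← hR] at hram
    have hlogy : 1 ≤ Real.log y := by
      rw [Real.le_log_iff_exp_le (by linarith)]
      have := Real.exp_one_lt_d9
      linarith
    have hRL : (R : ℝ) ≤ 4 * k := by
      have h1 : ((y : ℝ)) ^ R ≤ (D : ℝ) := by exact_mod_cast hram
      have h2 : Real.log ((y : ℝ) ^ R) ≤ Real.log (2 * X) := by
        apply Real.log_le_log (by positivity)
        exact h1.trans hDle
      rw [Real.log_pow, Real.log_mul (by norm_num) (by positivity)] at h2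
      have h3 : Real.log 2 ≤ L := by
        rw [hLdef]
        exact Real.log_le_log (by norm_num) (by linarith)
      rw [← hLdef] at h2
      have h4 : th a * L / Real.log y ≤ k := by
        rw [hk, kA]
        push_cast
        rw [← hLdef, ← hy]
        exact (Nat.lt_floor_add_one _).le
      rw [div_le_iff₀ (by linarith)] at h4
      have h5 : (1 / 2 : ℝ) * L ≤ th a * L := by
        have hL0 : 0 ≤ L := Real.log_natCast_nonneg X
        have : (1 / 2 : ℝ) ≤ th a := by unfold th; linarith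
        gcongr
      have h6 : (R : ℝ) * Real.log y ≤ (4 * k) * Real.log y := by linarith
      exact le_of_mul_le_mul_right h6 (by linarith)
    set x : ℝ := (R + 2 * k + θ) / P.card with hx
    have hε3 : ε ^ 3 ≤ ε := by
      calc ε ^ 3 ≤ ε ^ 1 := pow_le_pow_of_le_one hε.le hε1 (by norm_num)
        _ = ε := pow_one _
    have hkx : k * x ≤ ε := by
      have h1 : k * x = k * (R + 2 * k) / P.card + ε / 4 := by
        rw [hx, hθ]; field_simp
      rw [h1]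
      have h2 : k * (R + 2 * k) / P.card ≤ 3 * ε / 4 := by
        rw [div_le_iff₀ hpipos]
        have h3 : (k : ℝ) * (R + 2 * k) ≤ k * (4 * k + 2 * k) := by gcongr
        have h4 : ε ^ 3 * (P.card : ℝ) ≤ ε * P.card := by gcongr
        nlinarith
      linarith
    have hx0 : 0 ≤ x := by positivity
    have hx1 : x ≤ 1 := by
      have : 1 * x ≤ k * x := by gcongr
      linarith
    have hTlow : -θ ≤ (TT P D : ℝ) := (abs_le.1 hlt.le).1
    have hcond : (1 - x) * (P.card : ℝ) ≤ 2 * ((S : ℝ) - k) := by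
      have h1 : (1 - x) * (P.card : ℝ) = P.card - (R + 2 * k + θ) := by
        rw [hx]; field_simp
      rw [h1]
      linarith
    have hkey := key_choose S k P.card x hx1 hcond
    have hMD := MD_lower P (fun p hp => ⟨(hmem p hp).1, by
      have := (hmem p hp).2.1; omega⟩) k D
    rw [← hS] at hMD
    have hNX : NA a X = (P.card.choose k : ℝ) := rfl
    have hSX : SA a X = P.powersetCard k := rfl
    rw [hNX, hSX]
    calc (1 - ε) * (P.card.choose k : ℝ) ≤ (1 - k * x) * (P.card.choose k : ℝ) := by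
          gcongr
      _ ≤ 2 ^ k * (S.choose k : ℝ) := hkey
      _ ≤ _ := hMD
  exact Finset.sum_le_sum_of_subset_of_nonneg hsub
    fun D hD _ => hw D (Finset.mem_filter.1 hD).1

end MLOWh

theorem T2_MLOW : P2_SZ → P2_NB → P2_COMB → P2_PAIR → P2_WT → P2_V0 → P2_V1 → P2_MLOW := by
  intro _ hNB _ _ hWT hV0 hV1 a ha z r hF η hη hη1 C0 _ ε hε
  obtain ⟨hc0, hc1⟩ := MLOWh.cc_bounds a ha
  set e := min ε 1 with he
  have he0 : 0 < e := lt_min hε one_pos
  have heε : e ≤ ε := min_le_left _ _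
  obtain ⟨X0, hX0⟩ := eventually_atTop.1 ((MLOWh.main hNB hWT hV0 hV1 a ha z r hF η hη hη1 C0 e he0
    (min_le_right _ _)).and (eventually_ge_atTop 3))
  refine ⟨X0, fun X hX ρ hρ => ?_⟩
  obtain ⟨h, h3⟩ := hX0 X hX
  have h := h ρ hρ
  have hNX : 0 ≤ NA a X := Nat.cast_nonneg _
  have hsub : (DD z r X η).filter (fun D => MD D (SA a X) (fun _ => 1) < (1 - ε) * NA a X) ⊆
      (DD z r X η).filter (fun D => MD D (SA a X) (fun _ => 1) < (1 - e) * NA a X) := by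
    intro D hD
    rw [Finset.mem_filter] at hD ⊢
    refine ⟨hD.1, lt_of_lt_of_le hD.2 ?_⟩
    gcongr
  have hw : ∀ D ∈ DD z r X η, 0 ≤ wt ρ D := by
    intro D hD
    unfold DD at hD
    rw [Finset.mem_filter, Finset.mem_Ioc] at hD
    exact (hWT z X (Pool.Agent.H38R2.CG2.PA a X) (cc a) C0 ρ (by omega) (by linarith) hρ D (by omega)).1
  have hW0 : 0 ≤ WW z X η ρ := by
    have h1 := hρ.low
    have hXR : (3 : ℝ) ≤ X := by exact_mod_cast h3
    have h2 : 0 < ((Real.log X) ^ C0)⁻¹ := by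
      have := Real.log_pos (by linarith : (1 : ℝ) < X)
      positivity
    have h4 : 0 ≤ GG X ρ := h2.le.trans h1
    unfold WW
    positivity
  calc ∑ D ∈ (DD z r X η).filter (fun D => MD D (SA a X) (fun _ => 1) < (1 - ε) * NA a X), wt ρ D
      ≤ ∑ D ∈ (DD z r X η).filter (fun D => MD D (SA a X) (fun _ => 1) < (1 - e) * NA a X),
          wt ρ D := Finset.sum_le_sum_of_subset_of_nonneg hsub
            fun D hD _ => hw D (Finset.mem_filter.1 hD).1
    _ ≤ e * WW z X η ρ := h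
    _ ≤ ε * WW z X η ρ := by gcongr

end Pool.Agent.N71.PS
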