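import Pool.Agent.N71.PS.Stubs
import Pool.Agent.H38R2.CG2.SZ
import Pool.Agent.H38R2.CG.NB

/-!
# Size of the products; number of primes of the set
-/

set_option autoImplicit false

namespace Pool.Agent.N71.PS

open Finset Filter Pool.Agent.H38R2.CG Pool.Agent.H38R2.CG2
open scoped Classical

variable [PSet]

theorem PA_sub_old (a : ℝ) (X : ℕ) : PA a X ⊆ Pool.Agent.H38R2.CG2.PA a X := PP_sub_old _

theorem SA_sub_old {a : ℝ} {X : ℕ} {s : Finset ℕ} (hs : s ∈ SA a X) :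
    s ∈ Pool.Agent.H38R2.CG2.SA a X := by
  unfold SA at hs
  unfold Pool.Agent.H38R2.CG2.SA
  rw [Finset.mem_powersetCard] at hs ⊢
  exact ⟨hs.1.trans (PA_sub_old a X), hs.2⟩

theorem SWt_mono {z X : ℕ} {P P' : Finset ℕ} {δ : ℝ} {C0 : ℕ} {ρ : ℕ → ℝ}
    (h : SWt z X P δ C0 ρ) (hP : P' ⊆ P) : SWt z X P' δ C0 ρ where
  supp d hd := ⟨(h.supp d hd).1, (h.supp d hd).2.1, (h.supp d hd).2.2.1, (h.supp d hd).2.2.2.1,
    fun p hp => (h.supp d hd).2.2.2.2 p (hP hp)⟩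
  bd := h.bd
  low := h.low
  div := h.div
  pos := h.pos

theorem T2_SZ : P2_SZ := by
  intro a ha
  obtain ⟨X0, h⟩ := Pool.Agent.H38R2.CG2.T2_SZ a ha
  exact ⟨X0, fun X hX c s hc hs hcs =>
    h X hX c s (hc.trans (PA_sub_old a X)) (hs.trans (PA_sub_old a X)) hcs⟩

theorem T_NB : P_NB := by
  obtain ⟨δ, hδ, y1, h1⟩ := PSet.low
  obtain ⟨-, y2, h2⟩ := Pool.Agent.H38R2.CG.T_NB
  refine ⟨min δ 1, lt_min hδ one_pos, min_le_right _ _, max (max y1 y2) 2, fun y hy => ⟨?_, ?_⟩⟩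
  · refine le_trans ?_ (h1 y (le_trans (le_trans (le_max_left _ _) (le_max_left _ _)) hy))
    have hy2 : 2 ≤ y := le_trans (le_max_right _ _) hy
    have hlog : 0 < Real.log y := Real.log_pos (by exact_mod_cast (by omega : 1 < y))
    apply div_le_div_of_nonneg_right _ hlog.le
    exact mul_le_mul_of_nonneg_right (min_le_left _ _) (Nat.cast_nonneg _)
  · refine le_trans ?_ (h2 y (le_trans (le_trans (le_max_right _ _) (le_max_left _ _)) hy)).2
    exact_mod_cast Finset.card_le_card (PP_sub_old y)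

end Pool.Agent.N71.PS
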