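import Pool.Agent.N71.PS.TMc

set_option autoImplicit false

namespace Pool.Agent.N71.PS

open Finset Filter NumberField Pool.Agent.H38R2.CG Pool.Agent.H38R2.CG2
open scoped Classical

variable [PSet]

open TMch in
theorem T2_TMb : P2_SZ → P2_NB → P_TB2 → P_TB3c → P2_FJ → P2_JP → P2_OMC → P2_OM → P2_TC →
    P2_TMb := by
  intro hSZ hNB hTB2 hTB3c hFJ hJP hOMC hOM hTC a ha z r hz hr η hη hη1 C0 i0 hC0
  obtain ⟨l, hl, hOMl⟩ := hOM 1 1 one_pos one_pos le_rfl
  have hF0 : 0 < fejI := hFJ.1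
  have hlF : 0 < l / fejI := by positivity
  obtain ⟨ε, hε, hε1, hε2⟩ : ∃ ε : ℝ, 0 < ε ∧ ε ≤ 1 ∧ ε * (3 * (l / fejI)) ≤ 1 := by
    refine ⟨min 1 (1 / (3 * (l / fejI))), by positivity, min_le_left _ _, ?_⟩
    have := min_le_right 1 (1 / (3 * (l / fejI)))
    calc _ ≤ (1 / (3 * (l / fejI))) * (3 * (l / fejI)) :=
          mul_le_mul_of_nonneg_right this (by positivity)
      _ = 1 := by field_simp
  obtain ⟨X0, hX0⟩ := params hSZ hNB a ha z (2 + i0)
  obtain ⟨X1, hX1'⟩ := hTC a ha z C0 i0 hC0 l ε hl hε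
  refine ⟨max X0 X1, fun X hX ρ hρ c hc hci => ?_⟩
  obtain ⟨hX3, hlog, hk2, hQ, hsize⟩ := hX0 X ((le_max_left _ _).trans hX)
  have hTCX := hX1' X ((le_max_right _ _).trans hX) ρ hρ
  have hi0 : (0 : ℝ) ≤ i0 := Nat.cast_nonneg _
  have hck : c.card ≤ kA a X := by
    have h1 : (c.card : ℝ) ≤ kA a X := by
      have : (c.card : ℝ) ≤ i0 := by exact_mod_cast hci
      linarith
    exact_mod_cast h1
  set k := kA a X - c.card with hk
  have hX1 : 1 ≤ X := by omega
  have hcc : 0 < cc a := by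
    unfold cc
    apply div_pos <;> nlinarith
  have hcc2 : 2 * cc a ≤ 1 := by
    unfold cc
    rw [← mul_div_assoc, div_le_one (by nlinarith)]
    linarith
  have hG : 0 ≤ GG X ρ := by
    refine le_trans ?_ hρ.low
    have : (0 : ℝ) ≤ Real.log X := by linarith
    positivity
  set I : ℝ := Real.exp (1 / 2) * (η * √(X : ℝ) / 8) with hI
  have hl0 : (0 : ℝ) < Real.log X := by linarith
  set K : ℝ := (3 : ℝ) ^ c.card * GG X ρ * (I / (1 : ℕ)) with hK
  have hK0 : 0 ≤ K := by positivity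
  have hcore := core hTB2 hTB3c hFJ hJP hOMC l hl hOMl a z r X η hX1 hη hη1 ρ C0 hρ hQ c hc k
    (2 * th a * Real.log X - 1) (2 * (th a + cc a) * Real.log X + 1) (by nlinarith)
    (by
      intro s hs t ht
      have := hsize c hc hck s hs t ht
      constructor <;> linarith [this.1, this.2])
    (K * 2) (K * (ε / Real.log X * (CA a X k) ^ 2)) (by positivity) (by
      intro t
      have h1 := hTCX c 1 ⌊(X : ℝ) ^ (1 - cc a)⌋₊
        (fun v => om X η (v * Real.exp (-(1 / 2))) (Real.exp t)) I t hc hci le_rfl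
        (by
          intro p hp hp1
          exact absurd (Nat.dvd_one.1 hp1) hp.one_lt.ne')
        (Fanti hTB2 X η hX1 hη hη1 t)
        (fun x => (hTB2 X η hX1 hη hη1 (Real.exp t) (Real.exp_pos t)).2.1 _)
        (fun V hV => Fint hTB2 X η hX1 hη hη1 t V hV)
        (Nat.floor_le (by positivity))
      rw [Finset.filter_true_of_mem (fun v _ => one_dvd v)] at h1
      refine h1.trans ?_
      have hSF : 0 ≤ SF a X k c l t := by
        apply Finset.sum_nonneg
        intro s _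
        apply Finset.sum_nonneg
        intro t' _
        exact hFJ.2.1 _
      rw [← hk, ← hK]
      have h2 : (1 + ε) * SF a X k c l t ≤ 2 * SF a X k c l t :=
        mul_le_mul_of_nonneg_right (by linarith) hSF
      have h3 := mul_le_mul_of_nonneg_left h2 hK0
      linarith)
  refine hcore.trans ?_
  have he : Real.exp (1 / 2) * Real.exp (1 / 2) ≤ 5 / 2 + 3 / 10 := by
    rw [← Real.exp_add]
    norm_num
    have := Real.exp_one_lt_d9
    linarith
  have hCA : 0 ≤ (CA a X k) ^ 2 := sq_nonneg _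
  have hT : (2 * (th a + cc a) * Real.log X + 1 - (2 * th a * Real.log X - 1)) ≤
      3 * Real.log X := by nlinarith
  have h4 : K * (ε / Real.log X * (CA a X k) ^ 2) * (l / fejI) *
      (2 * (th a + cc a) * Real.log X + 1 - (2 * th a * Real.log X - 1)) ≤
      K * (CA a X k) ^ 2 := by
    calc _ ≤ K * (ε / Real.log X * (CA a X k) ^ 2) * (l / fejI) * (3 * Real.log X) :=
          mul_le_mul_of_nonneg_left hT (by positivity)
      _ = K * (CA a X k) ^ 2 * (ε * (3 * (l / fejI))) := by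
          field_simp
      _ ≤ K * (CA a X k) ^ 2 * 1 := mul_le_mul_of_nonneg_left hε2 (by positivity)
      _ = _ := by ring
  have hR : 0 ≤ (2 : ℝ) ^ z * (3 ^ c.card * GG X ρ * η * √(X : ℝ) *
      (CA a X k) ^ 2) := by positivity
  calc 2 ^ z * 16 * Real.exp (1 / 2) * (K * 2 * (CA a X k) ^ 2 +
      K * (ε / Real.log X * (CA a X k) ^ 2) * (l / fejI) *
        (2 * (th a + cc a) * Real.log X + 1 - (2 * th a * Real.log X - 1)))
      ≤ 2 ^ z * 16 * Real.exp (1 / 2) * (K * 2 * (CA a X k) ^ 2 + K * (CA a X k) ^ 2) := by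
        apply mul_le_mul_of_nonneg_left _ (by positivity)
        linarith
    _ = 6 * (Real.exp (1 / 2) * Real.exp (1 / 2)) * ((2 : ℝ) ^ z * (3 ^ c.card *
        GG X ρ * η * √(X : ℝ) * (CA a X k) ^ 2)) := by
        rw [hK, hI]; push_cast; ring
    _ ≤ 32 * ((2 : ℝ) ^ z * (3 ^ c.card * GG X ρ * η * √(X : ℝ) * (CA a X k) ^ 2)) := by
        apply mul_le_mul_of_nonneg_right _ hR
        linarith
    _ = _ := by rw [pow_add]; ring

end Pool.Agent.N71.PS
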