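import Pool.Agent.N71.PS.DStubs
import Pool.Agent.H38R2.CG.TB6a

/-!
# The local densities for `r` coprime to `Q`
-/

set_option autoImplicit false

namespace Pool.Agent.N71.PS

open Finset Filter NumberField Pool.Agent.H38R2.CG Pool.Agent.H38R2.CG2
open scoped Classical

theorem chi_odd (r l : ℕ) (hl : l.Prime) (h2 : l ≠ 2) : (chi r l : ℝ) = (jacobiSym (r : ℤ) l : ℝ) := by
  unfold chi
  have h1 : padicValNat 2 l = 0 := by
    apply padicValNat.eq_zero_of_not_dvd
    intro h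
    exact h2 ((Nat.prime_dvd_prime_iff_eq Nat.prime_two hl).1 h).symm
  rw [h1, pow_zero, one_mul, pow_zero, Nat.div_one]

theorem chi_two (r : ℕ) : (chi r 2 : ℝ) = if r % 8 = 1 then 1 else if r % 8 = 5 then -1 else 0 := by
  have hchi : (chi r 2 : ℝ) = (chi2 r : ℝ) := by
    unfold chi
    have h1 : padicValNat 2 2 = 1 := padicValNat_self
    rw [h1]
    norm_num
  rw [hchi]
  unfold chi2
  have e1 : ((r : ℤ) % 8 = 1) ↔ r % 8 = 1 := by omega
  have e2 : ((r : ℤ) % 8 = 5) ↔ r % 8 = 5 := by omega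
  simp only [e1, e2]
  split_ifs <;> simp

theorem D_ANC_true : D_ANC := by
  intro z r n hz hr hc
  have h2 : ¬ 2 ∣ r := by
    intro h
    have h16 : 2 ∣ Qz z := Dvd.dvd.mul_right (by norm_num) _
    exact Nat.Prime.not_coprime_iff_dvd.2 ⟨2, Nat.prime_two, h, h16⟩ hc
  have hr4 : r % 8 = 1 ∨ r % 8 = 5 := by
    rcases hr.2.1 with h | h | h <;> omega
  unfold AN PiR
  rw [TB6ah.Icc2 hz, prod_insert (TB6ah.two_notMem z)]
  have e1 : al2 r n = 2 * (1 - (chi r 2 : ℝ) / (2 : ℕ)) := by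
    unfold al2
    rw [chi_two]
    rcases hr4 with h | h
    · rw [if_pos h, if_pos h]; norm_num
    · rw [if_neg (by omega), if_pos h, if_neg (by omega), if_pos h]; norm_num
  have e2 : ∏ l ∈ (Finset.Icc 3 z).filter Nat.Prime, al l r n =
      ∏ l ∈ TB6ah.OP z, (1 - (chi r l : ℝ) / l) := by
    apply prod_congr rfl
    intro l hl
    have hlp := (mem_filter.1 hl).2
    have hl3 := (mem_Icc.1 (mem_filter.1 hl).1).1
    have hlr : ¬ l ∣ r := by
      intro h
      have hlQ : l ∣ Qz z := (TB6ah.dvd_Qz hz hlp).2 (Or.inr hl)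
      exact Nat.Prime.not_coprime_iff_dvd.2 ⟨l, hlp, h, hlQ⟩ hc
    unfold al
    rw [if_neg hlr, chi_odd r l hlp (by omega)]
  rw [e1, e2]
  push_cast
  ring

variable [PSet]

theorem SF_empty (a : ℝ) (X : ℕ) (l t : ℝ) : SF a X (kA a X) ∅ l t =
    ∑ s ∈ SA a X, ∑ t' ∈ SA a X, fej (l * (Real.log (prodS s * prodS t' : ℕ) - t)) := by
  unfold SF SA
  refine Finset.sum_congr rfl fun s _ => Finset.sum_congr rfl fun t' _ => ?_
  have : prodS ∅ ^ 2 * (prodS s * prodS t') = prodS s * prodS t' := by simp [prodS]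
  rw [this]

theorem D_SB_true (hFJ : P2_FJ) : D_SB := by
  intro a ha z r hz hr hc l ε hl hε
  refine ⟨0, fun X _ t => ?_⟩
  have h1 : SAN a z r X l t = 2 * PiR z r * SF a X (kA a X) ∅ l t := by
    unfold SAN
    rw [SF_empty, mul_sum]
    refine Finset.sum_congr rfl fun s _ => ?_
    rw [mul_sum]
    refine Finset.sum_congr rfl fun t' _ => ?_
    rw [D_ANC_true z r _ hz hr hc]
  rw [h1]
  have h2 : 0 ≤ SF a X (kA a X) ∅ l t := by
    rw [SF_empty]
    exact Finset.sum_nonneg fun s _ => Finset.sum_nonneg fun t' _ => hFJ.2.1 _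
  have h3 : 0 ≤ (NA a X) ^ 2 / Real.log X := div_nonneg (sq_nonneg _) (Real.log_natCast_nonneg X)
  have h4 : 0 ≤ ε * (SF a X (kA a X) ∅ l t + (NA a X) ^ 2 / Real.log X) := by positivity
  linarith

end Pool.Agent.N71.PS
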