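import Pool.Agent.H38R2.CG2.Stubs

/-!
# Sets of primes which are not concentrated in one class of a Dirichlet character: definitions

The variants for an arbitrary set of primes of the definitions in `Pool.Agent.H38R2.CG.Defs`.
-/

set_option autoImplicit false

namespace Pool.Agent.N71.PS

open Finset Filter
open scoped Classical

/-- primes of the set `P` in the interval `(y, 2 y]` -/
noncomputable def primesIn (P : Set ℕ) (y : ℕ) : Finset ℕ :=
  (Finset.Ioc y (2 * y)).filter (fun p => p.Prime ∧ p ∈ P)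

/-- A set of primes: positive proportion of the primes in all intervals `(y, 2 y]`. -/
class PSet where
  /-- the set -/
  P : Set ℕ
  /-- positive density -/
  low : ∃ δ : ℝ, 0 < δ ∧ ∃ y0 : ℕ, ∀ y ≥ y0, δ * y / Real.log y ≤ (primesIn P y).card

/-- No nonprincipal Dirichlet character is almost constant on the set. -/
def Osc (P : Set ℕ) : Prop := ∀ (q : ℕ) (χ : DirichletCharacter ℂ q), 1 ≤ q → χ ≠ 1 →
  ∃ β : ℝ, β < 1 ∧ ∃ y0 : ℕ,
    ∀ y ≥ y0, ‖∑ p ∈ primesIn P y, χ (p : ZMod q)‖ ≤ β * (primesIn P y).card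

variable [PSet]

/-- Primes of the set in the interval (y, 2y]. -/
noncomputable def PP (y : ℕ) : Finset ℕ :=
  (Finset.Ioc y (2 * y)).filter (fun p => p.Prime ∧ p ∈ PSet.P)

theorem PP_eq (y : ℕ) : PP y = primesIn PSet.P y := rfl

theorem mem_PP {y p : ℕ} : p ∈ PP y ↔ (y < p ∧ p ≤ 2 * y) ∧ p.Prime ∧ p ∈ PSet.P := by
  unfold PP
  rw [Finset.mem_filter, Finset.mem_Ioc]

theorem PP_sub_old (y : ℕ) : PP y ⊆ Pool.Agent.H38R2.CG.PP y := by
  intro p hp
  rw [mem_PP] at hp
  unfold Pool.Agent.H38R2.CG.PP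
  rw [Finset.mem_filter, Finset.mem_Ioc]
  exact ⟨hp.1, hp.2.1⟩

end Pool.Agent.N71.PS
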