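import Pool.Agent.N71.PS.Tasks
import Pool.Agent.H38R2.CG.CC6

/-!
# Small f are not bad (after helper702)
-/

set_option autoImplicit false

namespace Pool.Agent.N71.PS

open Finset Filter Pool.Agent.N71.PS
open scoped Classical Topology

variable [N71.PS.PSet]

/-- the condition for all characters of bounded modulus at once -/
theorem osc_unif (hosc : Osc PSet.P) (N : ℕ) : ∃ β : ℝ, 1 / 2 ≤ β ∧ β < 1 ∧ ∃ y0 : ℕ, ∀ y ≥ y0, ∀ q : ℕ, 1 ≤ q →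
    q ≤ N → ∀ χ : DirichletCharacter ℂ q, χ ≠ 1 →
      ‖∑ p ∈ primesIn N71.PS.PSet.P y, χ (p : ZMod q)‖ ≤ β * (primesIn N71.PS.PSet.P y).card := by
  have h1 : ∀ q ∈ Finset.Icc 1 N, ∀ᶠ β in 𝓝[<] (1 : ℝ), ∀ᶠ y : ℕ in atTop,
      ∀ χ : DirichletCharacter ℂ q, χ ≠ 1 →
        ‖∑ p ∈ primesIn N71.PS.PSet.P y, χ (p : ZMod q)‖ ≤ β * (primesIn N71.PS.PSet.P y).card := by
    intro q hq
    rw [Finset.mem_Icc] at hq
    have : NeZero q := ⟨by omega⟩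
    have h2 : ∀ χ : DirichletCharacter ℂ q, ∀ᶠ β in 𝓝[<] (1 : ℝ), ∀ᶠ y : ℕ in atTop, χ ≠ 1 →
        ‖∑ p ∈ primesIn N71.PS.PSet.P y, χ (p : ZMod q)‖ ≤ β * (primesIn N71.PS.PSet.P y).card := by
      intro χ
      by_cases hχ : χ = 1
      · exact Eventually.of_forall fun β => Eventually.of_forall fun y h => absurd hχ h
      · obtain ⟨β0, hβ0, y0, hy0⟩ := hosc q χ hq.1 hχ
        have h3 : ∀ᶠ β in 𝓝[<] (1 : ℝ), β0 < β :=
          nhdsWithin_le_nhds (lt_mem_nhds hβ0)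
        filter_upwards [h3] with β hβ
        filter_upwards [Filter.eventually_ge_atTop y0] with y hy _
        refine (hy0 y hy).trans ?_
        gcongr
    have h4 : ∀ᶠ β in 𝓝[<] (1 : ℝ), ∀ χ : DirichletCharacter ℂ q, ∀ᶠ y : ℕ in atTop, χ ≠ 1 →
        ‖∑ p ∈ primesIn N71.PS.PSet.P y, χ (p : ZMod q)‖ ≤ β * (primesIn N71.PS.PSet.P y).card :=
      eventually_all.mpr h2
    filter_upwards [h4] with β hβ
    exact eventually_all.mpr hβ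
  have h5 : ∀ᶠ β in 𝓝[<] (1 : ℝ), ∀ q ∈ Finset.Icc 1 N, ∀ᶠ y : ℕ in atTop,
      ∀ χ : DirichletCharacter ℂ q, χ ≠ 1 →
        ‖∑ p ∈ primesIn N71.PS.PSet.P y, χ (p : ZMod q)‖ ≤ β * (primesIn N71.PS.PSet.P y).card :=
    (Filter.eventually_all_finset _).mpr h1
  have h6 : ∀ᶠ β in 𝓝[<] (1 : ℝ), (1 / 2 : ℝ) < β :=
    nhdsWithin_le_nhds (lt_mem_nhds (by norm_num))
  have h7 : ∀ᶠ β in 𝓝[<] (1 : ℝ), β < 1 := self_mem_nhdsWithin
  obtain ⟨β, hb1, hb2, hb3⟩ := (h5.and (h6.and h7)).exists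
  have h8 := (Filter.eventually_all_finset _).mpr hb1
  obtain ⟨y0, hy0⟩ := Filter.eventually_atTop.mp h8
  refine ⟨β, hb2.le, hb3, y0, fun y hy q hq1 hqN χ hχ => ?_⟩
  exact hy0 y hy q (Finset.mem_Icc.mpr ⟨hq1, hqN⟩) χ hχ

theorem T_CC6 (hosc : Osc PSet.P) : P_CC6 := by
  intro M hM F
  obtain ⟨β, hβ1, hβ2, y0, hy0⟩ := osc_unif hosc (M * F)
  refine ⟨β, hβ1, hβ2, max y0 (M * F), ?_⟩
  intro y hy f hf hfF hs hc
  have hyy : y0 ≤ y := (le_max_left _ _).trans hy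
  have hyF : M * F ≤ y := (le_max_right _ _).trans hy
  rintro ⟨ψ, hψ, hlt⟩
  obtain ⟨q, χ, hq1, hqle, hprim, hχ⟩ :=
    Pool.Agent.H38R2.CG.CC6h.exists_char M f hM hf hs hc ψ hψ
  have hMf : M * f ≤ M * F := Nat.mul_le_mul_left M hfF
  have hne : χ ≠ 1 := by
    intro h1
    have : NeZero q := ⟨by omega⟩
    have h2 := (DirichletCharacter.eq_one_iff_conductor_eq_one).mp h1
    have h3 : χ.conductor = q := hprim
    omega
  have hkey := hy0 y hyy q hq1.le (hqle.trans hMf) χ hne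
  have heq : ∑ p ∈ PP y, ψ (p : ZMod M) * ((jacobiSym (p : ℤ) f : ℤ) : ℂ) =
      ∑ p ∈ PP y, χ (p : ZMod q) := by
    apply Finset.sum_congr rfl
    intro p hp
    rw [mem_PP] at hp
    exact (hχ p hp.2.1 (by omega)).symm
  rw [heq] at hlt
  rw [← PP_eq] at hkey
  linarith

end Pool.Agent.N71.PS
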