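import Pool.Agent.Y892.UF.W7

/-!
# The primes and the numbers `2 p` are negligible among the candidates
-/

set_option autoImplicit false

namespace Pool.Agent.N71.PS

open Finset Filter Pool.Agent.H38R2.CG2
open Pool.Agent.Y892.UF (Semi Two lower La La_tendsto)
open scoped Classical

/-- if almost all products of two primes have a property, then almost all candidates have it -/
theorem cand_of_semi (E : ℕ → Prop)
    (h : Tendsto (fun X : ℕ => (((Finset.Ioc 0 X).filter (fun D => Semi D ∧ E D)).card : ℝ) /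
      (((Finset.Ioc 0 X).filter Semi).card : ℝ)) atTop (nhds 0)) :
    Tendsto (fun X : ℕ => (((Finset.Ioc 0 X).filter
      (fun D => (D.Prime ∨ Two D ∨ Semi D) ∧ E D)).card : ℝ) /
      (((Finset.Ioc 0 X).filter (fun D => D.Prime ∨ Two D ∨ Semi D)).card : ℝ)) atTop (nhds 0) := by
  obtain ⟨L, hL0, -, -, hL⟩ := T2_CH
  obtain ⟨Z1, hlow⟩ := lower
  have ht : Tendsto (fun X : ℕ => La ⌊(X : ℝ) ^ ((1 : ℝ) / 2 ^ 2)⌋₊) atTop atTop :=
    La_tendsto.comp (tendsto_nat_floor_atTop.comp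
      ((tendsto_rpow_atTop (by norm_num)).comp tendsto_natCast_atTop_atTop))
  have h1 : Tendsto (fun X : ℕ => 32 * L * (La ⌊(X : ℝ) ^ ((1 : ℝ) / 2 ^ 2)⌋₊)⁻¹) atTop
      (nhds 0) := by
    have := ht.inv_tendsto_atTop.const_mul (32 * L)
    rw [mul_zero] at this
    exact this
  have h2 := h.add h1
  rw [add_zero] at h2
  refine squeeze_zero' (Eventually.of_forall fun X => by positivity) ?_ h2
  filter_upwards [eventually_ge_atTop (max Z1 2), ht.eventually_gt_atTop 0] with X hX hLa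
  have hX1 : Z1 ≤ X := (le_max_left _ _).trans hX
  have hX2 : 2 ≤ X := (le_max_right _ _).trans hX
  have hXr : (2 : ℝ) ≤ X := by exact_mod_cast hX2
  have hlog : 0 < Real.log X := Real.log_pos (by linarith)
  have h3 := hlow X hX1
  obtain ⟨A, hA⟩ : ∃ A, A = La ⌊(X : ℝ) ^ ((1 : ℝ) / 2 ^ 2)⌋₊ := ⟨_, rfl⟩
  rw [← hA] at h3 hLa ⊢
  obtain ⟨S, hS⟩ : ∃ S, S = ((Finset.Ioc 0 X).filter Semi).card := ⟨_, rfl⟩
  rw [← hS] at h3 ⊢
  have hSpos : (0 : ℝ) < S := lt_of_lt_of_le (by positivity) h3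
  have hden : (S : ℝ) ≤ ((Finset.Ioc 0 X).filter (fun D => D.Prime ∨ Two D ∨ Semi D)).card := by
    rw [hS]
    have : ((Finset.Ioc 0 X).filter Semi).card ≤
        ((Finset.Ioc 0 X).filter (fun D => D.Prime ∨ Two D ∨ Semi D)).card := by
      apply card_le_card
      intro D hD
      rw [mem_filter] at hD ⊢
      exact ⟨hD.1, Or.inr (Or.inr hD.2)⟩
    exact_mod_cast this
  have hP := hL X hX2
  obtain ⟨Pc, hPc⟩ : ∃ Pc, Pc = ((Finset.Icc 2 X).filter Nat.Prime).card := ⟨_, rfl⟩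
  rw [← hPc] at hP
  have htwo : ((Finset.Ioc 0 X).filter Two).card ≤ Pc := by
    rw [hPc]
    refine card_le_card_of_injOn (fun d => d / 2) ?_ ?_
    · intro d hd
      rw [mem_coe, mem_filter, mem_Ioc] at hd
      obtain ⟨⟨_, h5⟩, p, hp, _, rfl⟩ := hd
      rw [mem_coe, mem_filter, mem_Icc]
      have e : 2 * p / 2 = p := by omega
      show (2 ≤ 2 * p / 2 ∧ 2 * p / 2 ≤ X) ∧ (2 * p / 2).Prime
      rw [e]
      exact ⟨⟨hp.two_le, by omega⟩, hp⟩
    · intro d hd d' hd' hdd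
      rw [mem_coe, mem_filter] at hd hd'
      obtain ⟨_, p, _, _, rfl⟩ := hd
      obtain ⟨_, p', _, _, rfl⟩ := hd'
      have : 2 * p / 2 = 2 * p' / 2 := hdd
      omega
  have hnum : ((Finset.Ioc 0 X).filter (fun D => (D.Prime ∨ Two D ∨ Semi D) ∧ E D)).card ≤
      ((Finset.Ioc 0 X).filter (fun D => Semi D ∧ E D)).card + (Pc + Pc) := by
    have hsub : (Finset.Ioc 0 X).filter (fun D => (D.Prime ∨ Two D ∨ Semi D) ∧ E D) ⊆
        (Finset.Ioc 0 X).filter (fun D => Semi D ∧ E D) ∪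
          ((Finset.Icc 2 X).filter Nat.Prime ∪ (Finset.Ioc 0 X).filter Two) := by
      intro D hD
      rw [mem_filter, mem_Ioc] at hD
      obtain ⟨hD1, h5 | h5 | h5, h6⟩ := hD
      · rw [mem_union, mem_union]
        exact Or.inr (Or.inl (mem_filter.2 ⟨mem_Icc.2 ⟨h5.two_le, hD1.2⟩, h5⟩))
      · rw [mem_union, mem_union]
        exact Or.inr (Or.inr (mem_filter.2 ⟨mem_Ioc.2 hD1, h5⟩))
      · rw [mem_union]
        exact Or.inl (mem_filter.2 ⟨mem_Ioc.2 hD1, h5, h6⟩)
    refine (card_le_card hsub).trans ((card_union_le _ _).trans ?_)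
    refine Nat.add_le_add_left ((card_union_le _ _).trans ?_) _
    rw [← hPc]
    exact Nat.add_le_add_left htwo _
  have hnum' : (((Finset.Ioc 0 X).filter (fun D => (D.Prime ∨ Two D ∨ Semi D) ∧ E D)).card : ℝ) ≤
      ((Finset.Ioc 0 X).filter (fun D => Semi D ∧ E D)).card + 2 * Pc := by
    have : (((Finset.Ioc 0 X).filter (fun D => (D.Prime ∨ Two D ∨ Semi D) ∧ E D)).card : ℝ) ≤
        ((((Finset.Ioc 0 X).filter (fun D => Semi D ∧ E D)).card + (Pc + Pc) : ℕ) : ℝ) := by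
      exact_mod_cast hnum
    push_cast at this
    linarith
  calc (((Finset.Ioc 0 X).filter (fun D => (D.Prime ∨ Two D ∨ Semi D) ∧ E D)).card : ℝ) /
      (((Finset.Ioc 0 X).filter (fun D => D.Prime ∨ Two D ∨ Semi D)).card : ℝ)
      ≤ (((Finset.Ioc 0 X).filter (fun D => Semi D ∧ E D)).card + 2 * Pc) / S := by
        exact div_le_div₀ (by positivity) hnum' hSpos hden
    _ = (((Finset.Ioc 0 X).filter (fun D => Semi D ∧ E D)).card : ℝ) / S + 2 * Pc / S := by
        rw [add_div]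
    _ ≤ (((Finset.Ioc 0 X).filter (fun D => Semi D ∧ E D)).card : ℝ) / S + 32 * L * A⁻¹ := by
        refine add_le_add le_rfl ?_
        rw [div_le_iff₀ hSpos]
        calc 2 * (Pc : ℝ) ≤ 2 * (L * X / Real.log X) := by linarith
          _ = 32 * L * A⁻¹ * (1 / 16 * A * (X / Real.log X)) := by
              field_simp
              ring
          _ ≤ 32 * L * A⁻¹ * S := by
              apply mul_le_mul_of_nonneg_left h3
              positivity

end Pool.Agent.N71.PS
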