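import Mathlib

/-!
# A lower bound for the number of squarefree integers
-/

set_option autoImplicit false

namespace Pool.Agent.N71.PS

open Finset Filter
open scoped Classical

theorem sum_inv_sq (n : ℕ) : ∑ d ∈ Ico 2 (n + 3), (1 : ℝ) / (d : ℝ) ^ 2 ≤
    3 / 4 - 1 / ((n : ℝ) + 2) := by
  induction n with
  | zero =>
    rw [show Ico 2 (0 + 3) = {2} by rfl, sum_singleton]
    norm_num
  | succ n ih =>
    rw [sum_Ico_succ_top (by omega)]
    have h1 : (1 : ℝ) / ((n + 3 : ℕ) : ℝ) ^ 2 ≤ 1 / ((n : ℝ) + 2) - 1 / ((n : ℝ) + 3) := by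
      have hn : (0 : ℝ) ≤ n := Nat.cast_nonneg n
      rw [div_sub_div _ _ (by positivity) (by positivity),
        div_le_div_iff₀ (by positivity) (by positivity)]
      push_cast
      nlinarith
    have h2 : ((n + 1 : ℕ) : ℝ) + 2 = (n : ℝ) + 3 := by push_cast; ring
    rw [h2]
    have h3 : n + 1 + 2 = n + 3 := by omega
    linarith

/-- at least about a quarter of the integers are squarefree -/
theorem sqf_low (X : ℕ) (hX : 2 ≤ X) :
    (X : ℝ) / 4 ≤ ((Icc 1 X).filter (fun n => Squarefree n)).card := by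
  obtain ⟨n0, rfl⟩ : ∃ n0, X = n0 + 2 := ⟨X - 2, by omega⟩
  set X := n0 + 2 with hXdef
  have hcov : (Icc 1 X).filter (fun n => ¬ Squarefree n) ⊆
      (Ico 2 (n0 + 3)).biUnion (fun d => (Ioc 0 X).filter (fun n => d ^ 2 ∣ n)) := by
    intro n hn
    rw [mem_filter, mem_Icc] at hn
    rw [mem_biUnion]
    obtain ⟨⟨h1, h2⟩, h3⟩ := hn
    unfold Squarefree at h3
    push Not at h3
    obtain ⟨d, hd, hdu⟩ := h3
    have hd0 : d ≠ 0 := by
      rintro rfl
      rw [zero_mul, zero_dvd_iff] at hd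
      omega
    have hd1 : d ≠ 1 := fun h => hdu (by rw [h]; exact isUnit_one)
    have hdn : d * d ≤ n := Nat.le_of_dvd (by omega) hd
    have hd2 : d ≤ d * d := Nat.le_mul_self d
    refine ⟨d, ?_, ?_⟩
    · rw [mem_Ico]; omega
    · rw [mem_filter, mem_Ioc]
      refine ⟨⟨by omega, by omega⟩, ?_⟩
      rw [sq]; exact hd
  have h1 := card_le_card hcov
  have h2 : ((Ico 2 (n0 + 3)).biUnion
      (fun d => (Ioc 0 X).filter (fun n => d ^ 2 ∣ n))).card ≤ ∑ d ∈ Ico 2 (n0 + 3), X / d ^ 2 := by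
    refine card_biUnion_le.trans ?_
    apply sum_le_sum
    intro d _
    rw [Nat.Ioc_filter_dvd_card_eq_div]
  have h3 : ((∑ d ∈ Ico 2 (n0 + 3), X / d ^ 2 : ℕ) : ℝ) ≤ X * (3 / 4) := by
    push_cast
    calc ∑ d ∈ Ico 2 (n0 + 3), ((X / d ^ 2 : ℕ) : ℝ) ≤
          ∑ d ∈ Ico 2 (n0 + 3), (X : ℝ) * (1 / (d : ℝ) ^ 2) := by
          apply sum_le_sum
          intro d _
          refine Nat.cast_div_le.trans ?_
          rw [mul_one_div]
          push_cast
          exact le_rfl
      _ = (X : ℝ) * ∑ d ∈ Ico 2 (n0 + 3), 1 / (d : ℝ) ^ 2 := by rw [mul_sum]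
      _ ≤ X * (3 / 4) := by
          apply mul_le_mul_of_nonneg_left _ (Nat.cast_nonneg _)
          refine (sum_inv_sq n0).trans ?_
          have : (0 : ℝ) ≤ 1 / ((n0 : ℝ) + 2) := by positivity
          linarith
  have h4 := card_filter_add_card_filter_not (s := Icc 1 X) (fun n => Squarefree n)
  rw [Nat.card_Icc, Nat.add_sub_cancel] at h4
  have h6 : (((Icc 1 X).filter (fun n => ¬ Squarefree n)).card : ℝ) ≤ X * (3 / 4) := by
    refine le_trans ?_ h3
    exact_mod_cast h1.trans h2
  have h7 : (((Icc 1 X).filter (fun n => Squarefree n)).card : ℝ) +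
      ((Icc 1 X).filter (fun n => ¬ Squarefree n)).card = X := by exact_mod_cast h4
  linarith

/-- from density zero to density zero among the squarefree integers -/
theorem sqf_tendsto (E : ℕ → Prop)
    (h : Tendsto (fun X : ℕ => (((Icc 2 X).filter (fun d => Squarefree d ∧ E d)).card : ℝ) / X)
      atTop (nhds 0)) :
    Tendsto (fun X : ℕ => (((Icc 1 X).filter (fun d => Squarefree d ∧ E d)).card : ℝ) /
      (((Icc 1 X).filter (fun d => Squarefree d)).card : ℝ)) atTop (nhds 0) := by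
  have h1 : Tendsto (fun X : ℕ => 4 * ((((Icc 2 X).filter
      (fun d => Squarefree d ∧ E d)).card : ℝ) / X + 1 / X)) atTop (nhds 0) := by
    have h2 : Tendsto (fun X : ℕ => (1 : ℝ) / X) atTop (nhds 0) :=
      tendsto_one_div_atTop_nhds_zero_nat
    have h3 := (h.add h2).const_mul 4
    rw [add_zero, mul_zero] at h3
    exact h3
  refine squeeze_zero' (Eventually.of_forall fun X => by positivity) ?_ h1
  filter_upwards [eventually_ge_atTop 2] with X hX
  have hX0 : (0 : ℝ) < X := by exact_mod_cast (by omega : 0 < X)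
  have h4 := sqf_low X hX
  have h5 : (((Icc 1 X).filter (fun d => Squarefree d ∧ E d)).card : ℝ) ≤
      ((Icc 2 X).filter (fun d => Squarefree d ∧ E d)).card + 1 := by
    have h6 : (Icc 1 X).filter (fun d => Squarefree d ∧ E d) ⊆
        insert 1 ((Icc 2 X).filter (fun d => Squarefree d ∧ E d)) := by
      intro d hd
      rw [mem_filter, mem_Icc] at hd
      rw [mem_insert, mem_filter, mem_Icc]
      by_cases h1 : d = 1
      · exact Or.inl h1
      · exact Or.inr ⟨⟨by omega, hd.1.2⟩, hd.2⟩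
    exact_mod_cast (card_le_card h6).trans (card_insert_le _ _)
  calc (((Icc 1 X).filter (fun d => Squarefree d ∧ E d)).card : ℝ) /
      (((Icc 1 X).filter (fun d => Squarefree d)).card : ℝ)
      ≤ (((Icc 2 X).filter (fun d => Squarefree d ∧ E d)).card + 1) / (X / 4) := by
        gcongr
    _ = 4 * ((((Icc 2 X).filter (fun d => Squarefree d ∧ E d)).card : ℝ) / X + 1 / X) := by
        field_simp

end Pool.Agent.N71.PS
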