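import Pool.Agent.N71.PS.DStubs
import Pool.Agent.N71.PS.Fin
import Pool.Agent.Y892.UF.W7

/-!
# Final statements for arbitrary sets of primes of positive lower density
-/

set_option autoImplicit false

namespace Pool.Agent.N71.PS

open Finset Filter NumberField Pool.Agent.H38R2.CG Pool.Agent.H38R2.CG2 Pool.Agent.H38R2.CG3
open Pool.Agent.H38R2.CG.FINh
open Pool.Agent.Y892.UF (Semi Two)
open scoped Classical

variable [PSet]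

/-- D_AS0: few exceptional discriminants, in the weighted sense. -/
def D_AS0 : Prop := ∀ a : ℝ, 2 < a → ∀ t0 : ℝ, 0 < t0 → ∀ C0 : ℕ, 1 ≤ C0 → ∀ ε : ℝ, 0 < ε →
  ∃ z0 : ℕ, ∀ z ≥ z0,
  ∃ η1 : ℝ, 0 < η1 ∧ ∀ η : ℝ, 0 < η → η ≤ η1 → ∀ r : ℕ, FundRes z r → SANB a z r →
  ∃ X0 : ℕ, ∀ X ≥ X0,
  ∀ ρ : ℕ → ℝ, SWt z X (Pool.Agent.H38R2.CG2.PA a X) (cc a) C0 ρ →
    ∑ D ∈ (FD z r X η).filter (fun D => Bd a t0 X D), wt ρ D ≤ ε * WW z X η ρ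

/-- D_FS: squarefree `d` whose discriminant has the property `G`. -/
def D_FS : Prop := ∀ G : ℕ → Prop,
  (∀ a : ℝ, 2 < a → ∃ z1 : ℕ, ∀ z ≥ z1, ∀ D : ℕ, G D → IsFund D → SANB a z (D % Qz z)) →
  ∀ a ε : ℝ, 2 < a → 0 < ε →
  Tendsto (fun X : ℕ => (((Finset.Icc 2 X).filter
    (fun d => Squarefree d ∧ G (Dof d) ∧ ¬ GoodE PSet.P a ε d)).card : ℝ) / X) atTop (nhds 0)

/-- D_FP: primes whose discriminant has the property `G`. -/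
def D_FP : Prop := ∀ G : ℕ → Prop,
  (∀ a : ℝ, 2 < a → ∃ z1 : ℕ, ∀ z ≥ z1, ∀ p : ℕ, p.Prime → z < p → G (Dof p) →
    SANB a z (Dof p % Qz z)) →
  ∀ a ε : ℝ, 2 < a → 0 < ε →
  Tendsto (fun X : ℕ => (((Finset.Icc 2 X).filter
    (fun p => p.Prime ∧ G (Dof p) ∧ ¬ GoodE PSet.P a ε p)).card : ℝ) /
      (((Finset.Icc 2 X).filter Nat.Prime).card : ℝ)) atTop (nhds 0)

/-- D_FQ: products of two primes. -/
def D_FQ : Prop := ∀ a ε : ℝ, 2 < a → 0 < ε →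
  Tendsto (fun X : ℕ => (((Finset.Ioc 0 X).filter (fun D => Semi D ∧
    ¬ GoodE PSet.P a ε D)).card : ℝ) / (((Finset.Ioc 0 X).filter Semi).card : ℝ)) atTop (nhds 0)

/-- D_F2: the family `2 p`. -/
def D_F2 : Prop :=
  (∀ a : ℝ, 2 < a → ∃ z1 : ℕ, ∀ z ≥ z1, ∀ p : ℕ, p.Prime → z < p → p % 4 = 3 →
    SANB a z ((8 * p) % Qz z)) →
  ∀ a ε : ℝ, 2 < a → 0 < ε →
  Tendsto (fun X : ℕ => (((Finset.Ioc 0 X).filter (fun D => Two D ∧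
    ¬ GoodE PSet.P a ε D)).card : ℝ) / (((Finset.Ioc 0 X).filter Two).card : ℝ)) atTop (nhds 0)

/-- No real nonprincipal Dirichlet character of modulus coprime to `m` is almost constant on `P`. -/
def ROsc (P : Set ℕ) (m : ℕ) : Prop := ∀ (q : ℕ) (χ : DirichletCharacter ℂ q), 1 ≤ q →
  q.Coprime m → χ ^ 2 = 1 → χ ≠ 1 → ∃ β : ℝ, β < 1 ∧ ∃ y0 : ℕ,
    ∀ y ≥ y0, ‖∑ p ∈ primesIn P y, χ (p : ZMod q)‖ ≤ β * (primesIn P y).card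

/-- D_RA: `ROsc` gives admissible residues. -/
def D_RA : Prop := ∀ m : ℕ, 1 ≤ m → ROsc PSet.P m → ∀ z r : ℕ, r.Coprime m → Adm z r

end Pool.Agent.N71.PS
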