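import Pool.Agent.N71.PS.DFQ2

/-!
The limit for the products of two primes.
-/

set_option autoImplicit false

namespace Pool.Agent.N71.PS.DFQ

open Finset Filter Pool.Agent.H38R2.CG Pool.Agent.H38R2.CG3
open Pool.Agent.H38R2.CG2 hiding RR
open Pool.Agent.H38R2.CG.FINh
open Pool.Agent.Y892.UF hiding short_semi upper semi_tendsto
open scoped Classical

variable [PSet]

/-- the limit for the products of two primes -/
theorem semi_tendsto (hN0 : P_N0) (hN0d : P_N0d) (hN1 : P_N1) (hN3 : P_N3) (h4 : P_N4) (hKF : P_KF)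
    (h5b : P_N5b) (hN6 : P_N6) (hBH : P2_BH) (hRC : P2_RC) (hSB : D_SB) (hAS : D_AS0) (a : ℝ) (ha : 2 < a)
    (ε : ℝ) (hε : 0 < ε) :
    Tendsto (fun X : ℕ => (((Finset.Ioc 0 X).filter (fun D => Semi D ∧ ¬ GoodE PSet.P a ε D)).card : ℝ) /
      (((Finset.Ioc 0 X).filter Semi).card : ℝ)) atTop (nhds 0) := by
  rw [Metric.tendsto_atTop]
  intro κ hκ
  obtain ⟨C, hC, Z1, hZ1⟩ := upper hN0 hN0d hN1 hN3 h4 hKF h5b hN6 hBH hRC hSB hAS a ha ε hε
    (κ / 64) (by positivity)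
  obtain ⟨Z2, hZ2⟩ := lower
  obtain ⟨L, hL0, hCH1, -, -⟩ := T2_CH
  have ht : Tendsto (fun X : ℕ => La ⌊(X : ℝ) ^ ((1 : ℝ) / 2 ^ 2)⌋₊) atTop atTop :=
    La_tendsto.comp (tendsto_nat_floor_atTop.comp
      ((tendsto_rpow_atTop (by norm_num)).comp tendsto_natCast_atTop_atTop))
  obtain ⟨Z3, hZ3⟩ := eventually_atTop.1 (ht.eventually_ge_atTop
    ((κ / 64 * (2 * L) + C) / (κ / 64) + 1))
  refine ⟨max (max Z1 Z2) (max Z3 3), fun Z hZ => ?_⟩
  have h1 := hZ1 Z ((le_max_left _ _).trans ((le_max_left _ _).trans hZ))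
  have h2 := hZ2 Z ((le_max_right _ _).trans ((le_max_left _ _).trans hZ))
  have h3 := hZ3 Z ((le_max_left _ _).trans ((le_max_right _ _).trans hZ))
  have hZ3' : (3 : ℝ) ≤ Z := by
    exact_mod_cast (le_max_right _ _).trans ((le_max_right _ _).trans hZ)
  have hlZ : 0 < Real.log Z := Real.log_pos (by linarith)
  obtain ⟨A, hA⟩ : ∃ A, A = La ⌊(Z : ℝ) ^ ((1 : ℝ) / 2 ^ 2)⌋₊ := ⟨_, rfl⟩
  rw [← hA] at h2 h3
  have h4' : La Z ≤ A + 2 * L := by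
    have h5 := block L hL0.le hCH1 2 (Z : ℝ) (by linarith)
    have hsub : P3 Z ⊆ P3 ⌊(Z : ℝ) ^ ((1 : ℝ) / 2 ^ 2)⌋₊ ∪
        (Finset.Ioc ⌊(Z : ℝ) ^ ((1 : ℝ) / 2 ^ 2)⌋₊ ⌊(Z : ℝ)⌋₊).filter Nat.Prime := by
      intro p hp
      rw [mem_P3] at hp
      rw [mem_union, mem_P3, mem_filter, mem_Ioc, Nat.floor_natCast]
      by_cases h6 : p ≤ ⌊(Z : ℝ) ^ ((1 : ℝ) / 2 ^ 2)⌋₊
      · exact Or.inl ⟨h6, hp.2⟩
      · exact Or.inr ⟨⟨not_le.1 h6, hp.1⟩, hp.2.1⟩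
    have h6 : La Z ≤ La ⌊(Z : ℝ) ^ ((1 : ℝ) / 2 ^ 2)⌋₊ +
        ∑ p ∈ (Finset.Ioc ⌊(Z : ℝ) ^ ((1 : ℝ) / 2 ^ 2)⌋₊ ⌊(Z : ℝ)⌋₊).filter Nat.Prime,
          1 / (p : ℝ) := by
      unfold La
      exact (sum_le_sum_of_subset_of_nonneg hsub (fun p _ _ => by positivity)).trans
        (sum_un_le _ _ _ (fun p => by positivity))
    rw [← hA] at h6
    push_cast at h5
    linarith
  obtain ⟨V, hV⟩ : ∃ V, V = (Z : ℝ) / Real.log Z := ⟨_, rfl⟩
  have hV0 : 0 < V := by rw [hV]; positivity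
  rw [← hV] at h1 h2
  have h5 : (κ / 64 * (2 * L) + C) + κ / 64 ≤ κ / 64 * A := by
    have e : κ / 64 * ((κ / 64 * (2 * L) + C) / (κ / 64) + 1) =
        (κ / 64 * (2 * L) + C) + κ / 64 := by
      field_simp
    rw [← e]
    gcongr
  have hA0 : 0 < A := by
    have h6 : 0 < κ / 64 * A := lt_of_lt_of_le (by positivity) h5
    by_contra hcon
    push Not at hcon
    have : κ / 64 * A ≤ 0 := mul_nonpos_of_nonneg_of_nonpos (by positivity) hcon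
    linarith
  have hden : 0 < (((Finset.Ioc 0 Z).filter Semi).card : ℝ) :=
    lt_of_lt_of_le (by positivity) h2
  rw [Real.dist_eq, sub_zero, abs_of_nonneg (by positivity), div_lt_iff₀ hden]
  have h7 : κ / 64 * La Z * V + C * V ≤ 2 * (κ / 64) * A * V := by
    have h8 : κ / 64 * La Z ≤ κ / 64 * (A + 2 * L) := by gcongr
    have h9 : κ / 64 * La Z + C ≤ 2 * (κ / 64) * A := by
      nlinarith
    calc κ / 64 * La Z * V + C * V = (κ / 64 * La Z + C) * V := by ring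
      _ ≤ 2 * (κ / 64) * A * V := by gcongr
  have h10 : 2 * (κ / 64) * A * V = κ / 2 * (1 / 16 * A * V) := by ring
  have h11 : κ / 2 * (1 / 16 * A * V) ≤ κ / 2 * (((Finset.Ioc 0 Z).filter Semi).card : ℝ) := by
    gcongr
  have h12 : κ / 2 * (((Finset.Ioc 0 Z).filter Semi).card : ℝ) <
      κ * (((Finset.Ioc 0 Z).filter Semi).card : ℝ) := by
    apply mul_lt_mul_of_pos_right _ hden
    linarith
  linarith

end Pool.Agent.N71.PS.DFQ
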