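import Pool.Agent.N71.PS.DStubs2

/-!
# Obstructions by real characters
-/

set_option autoImplicit false

namespace Pool.Agent.N71.PS

open Finset Filter NumberField Pool.Agent.H38R2.CG Pool.Agent.H38R2.CG2 Pool.Agent.H38R2.CG3
open Pool.Agent.H38R2.CG.FINh
open scoped Classical

/-- No real nonprincipal Dirichlet character modulo a divisor of `D` is almost constant on `P`. -/
def Unobs (P : Set ℕ) (D : ℕ) : Prop := ∀ (q : ℕ) (χ : DirichletCharacter ℂ q), 1 ≤ q →
  q ∣ D → χ ^ 2 = 1 → χ ≠ 1 → ∃ β : ℝ, β < 1 ∧ ∃ y0 : ℕ,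
    ∀ y ≥ y0, ‖∑ p ∈ primesIn P y, χ (p : ZMod q)‖ ≤ β * (primesIn P y).card

/-- The two classes modulo 4 both occur with positive proportion in `P`. -/
def Both4 (P : Set ℕ) : Prop := ∃ β : ℝ, β < 1 ∧ ∃ y0 : ℕ, ∀ y ≥ y0,
  |(((primesIn P y).filter (fun p => p % 4 = 1)).card : ℝ) -
    ((primesIn P y).filter (fun p => p % 4 = 3)).card| ≤ β * (primesIn P y).card

variable [PSet]

/-- D_RB: unobstructed fundamental discriminants give admissible residues. -/
def D_RB : Prop := ∀ (z D : ℕ), 2 ≤ z → IsFund D → Unobs PSet.P D → Adm z (D % Qz z)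

/-- D_R4: the discriminants `4 p`. -/
def D_R4 : Prop := Both4 PSet.P → ∀ (z p : ℕ), 2 ≤ z → p.Prime → z < p → p % 4 = 3 →
  Adm z ((4 * p) % Qz z)

end Pool.Agent.N71.PS
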