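import Pool.Agent.N71.PS.AllD
import Pool.Agent.N71.PS.DFin
import Pool.Agent.N71.PS.Cand
import Pool.Agent.N71.PS.Count
import Pool.Agent.N459.PS.SA
import Pool.Agent.Y892.UF.W8

/-!
# The limits for arbitrary sets of primes of positive lower density
-/

set_option autoImplicit false

namespace Pool.Agent.N71.PS

open Finset Filter Pool.Agent.H38R2.CG Pool.Agent.H38R2.CG2 Pool.Agent.H38R2.CG3
open Pool.Agent.Y892.UF (Semi Two BH_true N3_true N4_true union_lim)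
open scoped Classical

variable [PSet]

theorem d_nbad : D_NBAD :=
  NBAD.D_NBAD_true (T2_NB T_NB) (T2_CC4 T_CC1 (T_CC3 T_BT T_NB))

theorem d_sa : D_SA := SA.D_SA_true T2_FJ T2_FS d_nbad

theorem d_sb : D_SB := D_SB_true T2_FJ

theorem d_fq : D_FQ :=
  DF2.D_FQ_true T_N0 T_N0d (T_N1 (T_SPL T_N0)) N3_true N4_true T_KF (T_N5b T_KF N4_true)
    (T_N6 T_KF) BH_true T2_RC d_sb d_as0_true

theorem d_f2 : D_F2 :=
  DF2.D_F2_true T_N0 T_N0d (T_N1 (T_SPL T_N0)) N3_true N4_true T_KF (T_N5b T_KF N4_true)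
    (T_N6 T_KF) BH_true T2_RC d_as0_true

theorem d_fs : D_FS :=
  D_FS_true T_N0 T_N0d (T_N1 (T_SPL T_N0)) N3_true N4_true T_KF (T_N5b T_KF N4_true)
    (T_N6 T_KF) T2_TRIV d_as0_true

theorem d_fp : D_FP :=
  D_FP_true T_N0 T_N0d (T_N1 (T_SPL T_N0)) N3_true N4_true T_KF (T_N5b T_KF N4_true)
    (T_N6 T_KF) Pool.Agent.H38R2.CG.T_NB BH_true T2_RC d_as0_true

theorem d_semi (a ε : ℝ) (ha : 2 < a) (hε : 0 < ε) :
    Tendsto (fun X : ℕ => (((Finset.Ioc 0 X).filter (fun D => Semi D ∧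
      ¬ GoodE PSet.P a ε D)).card : ℝ) / (((Finset.Ioc 0 X).filter Semi).card : ℝ)) atTop (nhds 0) :=
  d_fq a ε ha hε

/-- almost all candidates -/
theorem d_cand (a ε : ℝ) (ha : 2 < a) (hε : 0 < ε) :
    Tendsto (fun X : ℕ => (((Finset.Ioc 0 X).filter (fun D => (D.Prime ∨ Two D ∨ Semi D) ∧
      ¬ GoodE PSet.P a ε D)).card : ℝ) /
      (((Finset.Ioc 0 X).filter (fun D => D.Prime ∨ Two D ∨ Semi D)).card : ℝ)) atTop (nhds 0) := by
  have h := d_semi a ε ha hε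
  have key := cand_of_semi (fun D => ¬ GoodE PSet.P a ε D) (by convert h)
  convert key

end Pool.Agent.N71.PS
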