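import Pool.Agent.N71.PS.Base

/-!
# Statements for the primes of a given set
-/

set_option autoImplicit false

namespace Pool.Agent.N71.PS

open Finset Filter NumberField Pool.Agent.H38R2.CG Pool.Agent.H38R2.CG2
open scoped Classical

variable [PSet]

/-- number of primes of the set -/
def P_NB : Prop := ∃ δ : ℝ, 0 < δ ∧ δ ≤ 1 ∧ ∃ y0 : ℕ, ∀ y ≥ y0,
  δ * y / Real.log y ≤ (PP y).card ∧ ((PP y).card : ℝ) ≤ (11 / 10 : ℝ) * y / Real.log y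

/-- CC3: no correlation with n^{it}. -/
def P_CC3 : Prop := ∀ β : ℝ, β < 1 → ∀ M : ℕ, 1 ≤ M → ∃ c : ℝ, 0 < c ∧ c ≤ 1 / 2 ∧ ∃ y0 : ℕ,
  ∀ y ≥ y0, ∀ x : ℕ → ℂ, (∀ p ∈ PP y, x p = 0 ∨ x p ^ M = 1) →
  ‖∑ p ∈ PP y, x p‖ ≤ β * (PP y).card →
  ∀ ξ : ℝ, |ξ| ≤ √(y : ℝ) →
    ‖∑ p ∈ PP y, x p * Complex.exp (ξ * Real.log p * Complex.I)‖ ≤ (1 - c) * (PP y).card

/-- f is bad for M and y: some character mod M times the Jacobi symbol mod f does not oscillate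
on the primes of the set in (y, 2y]. -/
def BadF (β : ℝ) (M y f : ℕ) : Prop := ∃ ψ : DirichletCharacter ℂ M, ¬ (ψ = 1 ∧ f = 1) ∧
  β * (PP y).card <
    ‖∑ p ∈ PP y, ψ (p : ZMod M) * ((jacobiSym (p : ℤ) f : ℤ) : ℂ)‖

/-- CC5: number of bad f. -/
def P_CC5 : Prop := ∀ β : ℝ, 0 < β → ∀ M : ℕ, 1 ≤ M → ∃ C C2 : ℝ, 0 < C ∧ 0 < C2 ∧ ∃ y0 : ℕ,
  ∀ y ≥ y0, ∀ i : ℕ, 1 ≤ i →
  (((Finset.Icc 1 ⌊((2 * y : ℝ)) ^ ((i : ℝ) / 2)⌋₊).filter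
    (fun f => Squarefree f ∧ f.Coprime (2 * M) ∧ BadF β M y f)).card : ℝ) ≤
    C * (i.factorial : ℝ) * (C2 * Real.log y) ^ i

/-- CC6: the f below a constant are not bad. -/
def P_CC6 : Prop := ∀ M : ℕ, 1 ≤ M → ∀ F : ℕ, ∃ β : ℝ, 1 / 2 ≤ β ∧ β < 1 ∧ ∃ y0 : ℕ, ∀ y ≥ y0,
  ∀ f : ℕ, 1 ≤ f → f ≤ F → Squarefree f → f.Coprime (2 * M) → ¬ BadF β M y f

/-- CC8: only boundedly many small f are bad. -/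
def P_CC8 : Prop := ∀ M : ℕ, 1 ≤ M → ∃ K0 : ℝ, 0 < K0 ∧ ∃ y0 : ℕ, ∀ y ≥ y0,
  (((Finset.Icc 1 ⌊(Real.log y) ^ 3⌋₊).filter
    (fun f => Squarefree f ∧ f.Coprime (2 * M) ∧ BadF (1 / 2) M y f)).card : ℝ) ≤ K0

/-- primes of the set for the parameters of the project -/
noncomputable def PA (a : ℝ) (X : ℕ) : Finset ℕ := PP (yA a X)
noncomputable def SA (a : ℝ) (X : ℕ) : Finset (Finset ℕ) := (PA a X).powersetCard (kA a X)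
/-- binomial coefficient: number of j-element subsets of PA -/
noncomputable def CA (a : ℝ) (X j : ℕ) : ℝ := ((PA a X).card.choose j : ℝ)
noncomputable def NA (a : ℝ) (X : ℕ) : ℝ := CA a X (kA a X)

/-- P2_SZ: size of the products. -/
def P2_SZ : Prop := ∀ a : ℝ, 2 < a → ∃ X0 : ℕ, ∀ X ≥ X0, ∀ c s : Finset ℕ, c ⊆ PA a X →
  s ⊆ PA a X → c.card + s.card = kA a X →
  (X : ℝ) ^ (th a) ≤ (prodS c : ℝ) * prodS s ∧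
    (prodS c : ℝ) * prodS s ≤ (X : ℝ) ^ (th a + cc a)

/-- P2_CC4: twisted sums over k-element sets. -/
def P2_CC4 : Prop := ∀ β : ℝ, β < 1 → ∀ M : ℕ, 1 ≤ M → ∃ c : ℝ, 0 < c ∧ c ≤ 1 / 2 ∧ ∃ y0 : ℕ,
  ∀ y ≥ y0, ∀ (ψ : DirichletCharacter ℂ M) (f : ℕ), Squarefree f → f.Coprime (2 * M) →
  ‖∑ p ∈ PP y, ψ (p : ZMod M) * ((jacobiSym (p : ℤ) f : ℤ) : ℂ)‖ ≤ β * (PP y).card →
  ∀ k : ℕ, 1 ≤ k → k ^ 2 ≤ (PP y).card → ∀ ξ : ℝ, |ξ| ≤ √(y : ℝ) →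
  ‖∑ s ∈ (PP y).powersetCard k, ψ (prodS s : ZMod M) * ((jacobiSym (prodS s : ℤ) f : ℤ) : ℂ) *
      Complex.exp (ξ * Real.log (prodS s) * Complex.I)‖ ≤
    50 * √(k : ℝ) * (1 - c) ^ k * ((PP y).card.choose k)

/-- P2_CC7: bad f have small weighted harmonic sum. -/
def P2_CC7 : Prop := ∀ a : ℝ, 2 < a → ∀ M : ℕ, 1 ≤ M → ∀ C1 : ℕ, ∀ ε : ℝ, 0 < ε →
  ∃ β : ℝ, 1 / 2 ≤ β ∧ β < 1 ∧ ∃ X0 : ℕ, ∀ X ≥ X0,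
  ∑ f ∈ (Finset.Icc 1 X).filter
      (fun f => Squarefree f ∧ f.Coprime (2 * M) ∧ BadF β M (yA a X) f),
    (C1 : ℝ) ^ f.primeFactors.card / f ≤ ε

/-- P2_NBAD: the f that are not bad. -/
def P2_NBAD : Prop := ∀ β : ℝ, β < 1 → ∀ a : ℝ, 2 < a → ∀ M : ℕ, 1 ≤ M → ∀ C1 i0 : ℕ,
  ∀ l ε : ℝ, 0 < l → 0 < ε →
  ∃ X0 : ℕ, ∀ X ≥ X0, ∀ k : ℕ, kA a X - i0 ≤ k → k ≤ kA a X →
  ∃ b : ℝ, 0 ≤ b ∧ b ^ 2 * (1 + Real.log X) ^ C1 ≤ ε / Real.log X * (CA a X k) ^ 2 ∧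
  ∀ (ψ : DirichletCharacter ℂ M) (f : ℕ), Squarefree f → f.Coprime (2 * M) →
  ¬ (ψ = 1 ∧ f = 1) → ¬ BadF β M (yA a X) f → ∀ ξ : ℝ, |ξ| ≤ l →
  ‖∑ s ∈ (PA a X).powersetCard k, ψ (prodS s : ZMod M) *
      ((jacobiSym (prodS s : ℤ) f : ℤ) : ℂ) * Complex.exp (ξ * Real.log (prodS s) * Complex.I)‖ ≤ b

/-- P2_NB: size of the parameters. -/
def P2_NB : Prop := ∀ a : ℝ, 2 < a → ∀ ε : ℝ, 0 < ε → ∃ X0 : ℕ, ∀ X ≥ X0,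
  ((kA a X : ℝ)) ^ 2 ≤ (Real.log X) ^ (-((a - 2) / 2)) * (PA a X).card ∧
  (X : ℝ) ^ (1 / 2 + 3 * cc a) ≤ NA a X ∧
  (2 : ℝ) ^ (kA a X) ≤ (X : ℝ) ^ ε ∧ (kA a X : ℝ) ≤ Real.log X ∧
  √(Real.log X) ≤ kA a X ∧ (yA a X : ℝ) ≤ (X : ℝ) ^ ε ∧ 4 * (kA a X) ^ 2 ≤ (PA a X).card ∧
  ((PA a X).card : ℝ) ≤ (X : ℝ) ^ ε

/-- P2_MLOW: for almost all D (in the weighted sense) there are enough ideals. -/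
def P2_MLOW : Prop := ∀ a : ℝ, 2 < a → ∀ (z r : ℕ), FundRes z r → ∀ η : ℝ, 0 < η →
  η ≤ 1 → ∀ C0 : ℕ, 1 ≤ C0 → ∀ ε : ℝ, 0 < ε → ∃ X0 : ℕ, ∀ X ≥ X0, ∀ ρ : ℕ → ℝ,
  SWt z X (Pool.Agent.H38R2.CG2.PA a X) (cc a) C0 ρ →
    ∑ D ∈ (DD z r X η).filter (fun D => MD D (SA a X) (fun _ => 1) < (1 - ε) * NA a X), wt ρ D ≤
      ε * WW z X η ρ

/-- P2_ERR: the error terms and the diagonal. -/
def P2_ERR : Prop := ∀ a : ℝ, 2 < a → ∀ (z r : ℕ), FundRes z r → ∀ η : ℝ, 0 < η →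
  η ≤ 1 → ∀ C0 : ℕ, 1 ≤ C0 → ∀ ε : ℝ, 0 < ε → ∃ X0 : ℕ, ∀ X ≥ X0, ∀ ρ : ℕ → ℝ,
  SWt z X (PA a X) (cc a) C0 ρ →
    (∑ s ∈ SA a X, ∑ t ∈ SA a X, 2 ^ ((s ∩ t).card) *
      ((if IsSquare (prodS s * prodS t) then ∑ D ∈ DD z r X η, wt ρ D else 0) +
      2 * ∑ v ∈ Finset.Icc 1 ⌊2 * √(((prodS s * prodS t : ℕ) : ℝ) / X)⌋₊,
        ∑ d ∈ Finset.Icc 1 X, |ρ d| * (RR z r (prodS s * prodS t) v d : ℝ))) ≤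
      ε * GG X ρ * √(X : ℝ) * (NA a X) ^ 2

/-- positive sum with the Fejer kernel -/
noncomputable def SF (a : ℝ) (X k : ℕ) (c : Finset ℕ) (l t : ℝ) : ℝ :=
  ∑ s ∈ (PA a X).powersetCard k, ∑ t' ∈ (PA a X).powersetCard k,
    fej (l * (Real.log (prodS c ^ 2 * (prodS s * prodS t') : ℕ) - t))

/-- the sum over v, without characters modulo Q -/
noncomputable def UJ (a : ℝ) (z X k : ℕ) (ρ : ℕ → ℝ) (c : Finset ℕ) (F : ℝ → ℝ) (l t : ℝ)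
    (v : ℕ) : ℝ :=
  F v * ∑ s ∈ (PA a X).powersetCard k, ∑ t' ∈ (PA a X).powersetCard k,
    JJ z X ρ c (prodS s * prodS t') v *
      fej (l * (Real.log (prodS c ^ 2 * (prodS s * prodS t') : ℕ) - t))

/-- P2_TC0: upper bound for any c, lossy. -/
def P2_TC0 : Prop := ∀ a : ℝ, 2 < a → ∀ (z X : ℕ), 3 ≤ X → ∀ (C0 : ℕ), 1 ≤ C0 → ∀ ρ : ℕ → ℝ,
  SWt z X (PA a X) (cc a) C0 ρ → (∀ p ∈ PA a X, ¬ p ∣ Qz z) →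
  ∀ (c : Finset ℕ) (k w V : ℕ) (F : ℝ → ℝ) (I l t : ℝ),
  c ⊆ PA a X → 1 ≤ w → (∀ p : ℕ, p.Prime → p ∣ w → p ∣ Qz z) →
  AntitoneOn F (Set.Ici 0) → (∀ x, 0 ≤ F x) →
  (∀ V : ℝ, 0 ≤ V → ∫ x in (0 : ℝ)..V, F x ≤ I) → 0 < l → (V : ℝ) ≤ (X : ℝ) ^ (1 - cc a) →
  ∑ v ∈ (Finset.Icc 1 V).filter (fun v => w ∣ v), UJ a z X k ρ c F l t v ≤
    3 ^ c.card * GG X ρ * (I / w) * (1 + Real.log X) ^ (2 * C0) * SF a X k c l t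

/-- P2_TC: upper bound for small c. -/
def P2_TC : Prop := ∀ a : ℝ, 2 < a → ∀ (z C0 i0 : ℕ), 1 ≤ C0 → ∀ l ε : ℝ, 0 < l → 0 < ε →
  ∃ X0 : ℕ, ∀ X ≥ X0, ∀ ρ : ℕ → ℝ, SWt z X (PA a X) (cc a) C0 ρ →
  ∀ (c : Finset ℕ) (w V : ℕ) (F : ℝ → ℝ) (I t : ℝ),
  c ⊆ PA a X → c.card ≤ i0 → 1 ≤ w → (∀ p : ℕ, p.Prime → p ∣ w → p ∣ Qz z) →
  AntitoneOn F (Set.Ici 0) → (∀ x, 0 ≤ F x) →
  (∀ V : ℝ, 0 ≤ V → ∫ x in (0 : ℝ)..V, F x ≤ I) → (V : ℝ) ≤ (X : ℝ) ^ (1 - cc a) →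
  ∑ v ∈ (Finset.Icc 1 V).filter (fun v => w ∣ v), UJ a z X (kA a X - c.card) ρ c F l t v ≤
    3 ^ c.card * GG X ρ * (I / w) * ((1 + ε) * SF a X (kA a X - c.card) c l t +
      ε / Real.log X * (CA a X (kA a X - c.card)) ^ 2)

/-- P2_TD: expansion of rhoQ in characters. -/
def P2_TD : Prop := ∀ (z r v f X k : ℕ) (a l t : ℝ), 2 ≤ z → FundRes z r → 1 ≤ v →
  (∀ p ∈ PA a X, ¬ p ∣ Qz z) →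
  |(∑ s ∈ (PA a X).powersetCard k, ∑ t' ∈ (PA a X).powersetCard k,
      (rhoQ z r (prodS s * prodS t') v : ℝ) *
      ((jacobiSym ((prodS s * prodS t' : ℕ) : ℤ) f : ℤ) : ℝ) *
      fej (l * (Real.log (prodS s * prodS t' : ℕ) - t))) -
    (if f = 1 then rbar z r v * SF a X k ∅ l t else 0)| ≤
  (Qz z * 8 * 2 ^ z : ℝ) * ∑ ψ : DirichletCharacter ℂ (Qz z * (qpart z v) ^ 2),
    (if ψ = 1 ∧ f = 1 then 0 else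
      ‖∑ s ∈ (PA a X).powersetCard k, ∑ t' ∈ (PA a X).powersetCard k,
        ψ (prodS s : ZMod (Qz z * (qpart z v) ^ 2)) * ((jacobiSym (prodS s : ℤ) f : ℤ) : ℂ) *
        (ψ (prodS t' : ZMod (Qz z * (qpart z v) ^ 2)) * ((jacobiSym (prodS t' : ℤ) f : ℤ) : ℂ)) *
        ((fej (l * (Real.log (prodS s) + Real.log (prodS t') - t)) : ℝ) : ℂ)‖)

/-- P2_TE: the v with small part at the primes dividing Q. -/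
def P2_TE : Prop := ∀ a : ℝ, 2 < a → ∀ (z r : ℕ), 2 ≤ z → FundRes z r → ∀ (C0 w : ℕ), 1 ≤ C0 →
  1 ≤ w → ∀ l ε : ℝ, 0 < l → 0 < ε → ∃ X0 : ℕ, ∀ X ≥ X0, ∀ ρ : ℕ → ℝ,
  SWt z X (PA a X) (cc a) C0 ρ → ∀ (V : ℕ) (F : ℝ → ℝ) (I t : ℝ),
  AntitoneOn F (Set.Ici 0) → (∀ x, 0 ≤ F x) →
  (∀ V : ℝ, 0 ≤ V → ∫ x in (0 : ℝ)..V, F x ≤ I) → (V : ℝ) ≤ (X : ℝ) ^ (1 - cc a) →
  ∑ v ∈ (Finset.Icc 1 V).filter (fun v => qpart z v = w),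
    F v * ∑ s ∈ SA a X, ∑ t' ∈ SA a X, (rhoQ z r (prodS s * prodS t') v : ℝ) *
      JJ z X ρ ∅ (prodS s * prodS t') v * fej (l * (Real.log (prodS s * prodS t' : ℕ) - t)) ≤
    GG X ρ * ((∑ v ∈ (Finset.Icc 1 V).filter (fun v => qpart z v = w), F v * rbar z r v) *
        SF a X (kA a X) ∅ l t +
      ε * I * (SF a X (kA a X) ∅ l t + (NA a X) ^ 2 / Real.log X))

/-- P2_TA: the main term for one t. -/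
def P2_TA : Prop := ∀ a : ℝ, 2 < a → ∀ (z r : ℕ), 2 ≤ z → FundRes z r → ∀ (C0 : ℕ), 1 ≤ C0 →
  ∀ l ε : ℝ, 0 < l → 0 < ε → ∃ X0 : ℕ, ∀ X ≥ X0, ∀ ρ : ℕ → ℝ,
  SWt z X (PA a X) (cc a) C0 ρ → ∀ (V : ℕ) (F : ℝ → ℝ) (I t : ℝ),
  AntitoneOn F (Set.Ici 0) → (∀ x, 0 ≤ F x) →
  (∀ V : ℝ, 0 ≤ V → ∫ x in (0 : ℝ)..V, F x ≤ I) → (V : ℝ) ≤ (X : ℝ) ^ (1 - cc a) →
  ∑ v ∈ Finset.Icc 1 V,
    F v * ∑ s ∈ SA a X, ∑ t' ∈ SA a X, (rhoQ z r (prodS s * prodS t') v : ℝ) *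
      JJ z X ρ ∅ (prodS s * prodS t') v * fej (l * (Real.log (prodS s * prodS t' : ℕ) - t)) ≤
    GG X ρ * (2 * PiR z r * (((∏ q ∈ (Finset.Icc 2 z).filter Nat.Prime, q : ℕ) : ℝ) * F 0 + I) *
        SF a X (kA a X) ∅ l t +
      ε * I * (SF a X (kA a X) ∅ l t + (NA a X) ^ 2 / Real.log X))

/-- P2_TMa: pairs of disjoint sets. -/
def P2_TMa : Prop := ∀ a : ℝ, 2 < a → ∀ (z r : ℕ), 2 ≤ z → FundRes z r → ∀ η : ℝ, 0 < η →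
  η ≤ 1 → ∀ C0 : ℕ, 1 ≤ C0 → ∀ ε : ℝ, 0 < ε → ∃ X0 : ℕ, ∀ X ≥ X0, ∀ ρ : ℕ → ℝ,
  SWt z X (PA a X) (cc a) C0 ρ →
    ∑ s ∈ SA a X, ∑ t ∈ SA a X, MT a z r X η ρ ∅ s t ≤
      (1 + ε) * (PiR z r / (4 * Qz z)) * GG X ρ * η * √(X : ℝ) * (NA a X) ^ 2

/-- P2_TMb: pairs with a small intersection. -/
def P2_TMb : Prop := ∀ a : ℝ, 2 < a → ∀ (z r : ℕ), 2 ≤ z → FundRes z r → ∀ η : ℝ, 0 < η →
  η ≤ 1 → ∀ C0 i0 : ℕ, 1 ≤ C0 → ∃ X0 : ℕ, ∀ X ≥ X0, ∀ ρ : ℕ → ℝ,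
  SWt z X (PA a X) (cc a) C0 ρ → ∀ c ⊆ PA a X, c.card ≤ i0 →
    ∑ s ∈ (PA a X).powersetCard (kA a X - c.card),
      ∑ t ∈ (PA a X).powersetCard (kA a X - c.card), MT a z r X η ρ c s t ≤
      2 ^ (z + 5) * 3 ^ c.card * GG X ρ * η * √(X : ℝ) * (CA a X (kA a X - c.card)) ^ 2

/-- P2_TMc: pairs with any intersection, lossy. -/
def P2_TMc : Prop := ∀ a : ℝ, 2 < a → ∀ (z r : ℕ), 2 ≤ z → FundRes z r → ∀ η : ℝ, 0 < η →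
  η ≤ 1 → ∀ C0 : ℕ, 1 ≤ C0 → ∃ X0 : ℕ, ∀ X ≥ X0, ∀ ρ : ℕ → ℝ,
  SWt z X (PA a X) (cc a) C0 ρ → ∀ c ⊆ PA a X, c.card ≤ kA a X →
    ∑ s ∈ (PA a X).powersetCard (kA a X - c.card),
      ∑ t ∈ (PA a X).powersetCard (kA a X - c.card), MT a z r X η ρ c s t ≤
      2 ^ (z + 5) * 3 ^ c.card * (1 + Real.log X) ^ (2 * C0) * GG X ρ * η * √(X : ℝ) *
        (CA a X (kA a X - c.card)) ^ 2

/-- P2_TM: the near collision bound. -/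
def P2_TM : Prop := ∀ a : ℝ, 2 < a → ∀ (z r : ℕ), 2 ≤ z → FundRes z r → ∀ η : ℝ, 0 < η →
  η ≤ 1 → ∀ C0 : ℕ, 1 ≤ C0 → ∀ ε : ℝ, 0 < ε → ∃ X0 : ℕ, ∀ X ≥ X0, ∀ ρ : ℕ → ℝ,
  SWt z X (PA a X) (cc a) C0 ρ →
    ∑ D ∈ DD z r X η, wt ρ D * SD D (SA a X) (fun _ => 1) ≤
      (1 + ε) * (PiR z r / (2 * Qz z)) * GG X ρ * η * √(X : ℝ) * (NA a X) ^ 2

end Pool.Agent.N71.PS
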