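import Pool.Agent.N71.PS.W7
import Pool.Agent.N71.PS.AllA
import Pool.Agent.Y892.UF.W8

/-!
# The three families: prime radicands, `2 p`, and `p q`
-/

set_option autoImplicit false

namespace Pool.Agent.N71.PS

open Finset Filter Pool.Agent.H38R2.CG Pool.Agent.H38R2.CG2 Pool.Agent.H38R2.CG3
open Pool.Agent.Y892.UF (Semi Two BH_true N3_true N4_true union_lim)
open scoped Classical

variable [PSet]

theorem semi_lim (hAS : P3_AS0) (a ε : ℝ) (ha : 2 < a) (hε : 0 < ε) :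
    Tendsto (fun X : ℕ => (((Finset.Ioc 0 X).filter (fun D => Semi D ∧
      ¬ GoodE PSet.P a ε D)).card : ℝ) / (((Finset.Ioc 0 X).filter Semi).card : ℝ)) atTop (nhds 0) :=
  semi_tendsto T_N0 T_N0d (T_N1 (T_SPL T_N0)) N3_true N4_true T_KF (T_N5b T_KF N4_true)
    (T_N6 T_KF) BH_true T2_RC hAS a ha ε hε

theorem two_lim (hAS : P3_AS0) (a ε : ℝ) (ha : 2 < a) (hε : 0 < ε) :
    Tendsto (fun X : ℕ => (((Finset.Ioc 0 X).filter (fun D => Two D ∧
      ¬ GoodE PSet.P a ε D)).card : ℝ) / (((Finset.Ioc 0 X).filter Two).card : ℝ)) atTop (nhds 0) :=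
  two_tendsto T_N0 T_N0d (T_N1 (T_SPL T_N0)) N3_true N4_true T_KF (T_N5b T_KF N4_true)
    (T_N6 T_KF) BH_true T2_RC hAS a ha ε hε

theorem finalE_of (hAS : P3_AS0) : FinalE PSet.P :=
  finalE T_N0 T_N0d (T_N1 (T_SPL T_N0)) N3_true N4_true T_KF (T_N5b T_KF N4_true)
    (T_N6 T_KF) T2_TRIV hAS

theorem finalEP_of (hAS : P3_AS0) : FinalEP PSet.P :=
  finalEP T_N0 T_N0d (T_N1 (T_SPL T_N0)) N3_true N4_true T_KF (T_N5b T_KF N4_true)
    (T_N6 T_KF) Pool.Agent.H38R2.CG.T_NB BH_true T2_RC hAS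

theorem prime_lim (hAS : P3_AS0) (a ε : ℝ) (ha : 2 < a) (hε : 0 < ε) :
    Tendsto (fun X : ℕ => (((Finset.Ioc 0 X).filter (fun D => D.Prime ∧
      ¬ GoodE PSet.P a ε D)).card : ℝ) /
      (((Finset.Ioc 0 X).filter Nat.Prime).card : ℝ)) atTop (nhds 0) := by
  refine (finalEP_of hAS a ε ha hε).congr (fun X => ?_)
  have e : ∀ f : ℕ → Prop, (∀ d, f d → 2 ≤ d) →
      ((Finset.Icc 2 X).filter f) = ((Finset.Ioc 0 X).filter f) := by
    intro f hf
    ext d
    rw [mem_filter, mem_filter, mem_Icc, mem_Ioc]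
    constructor
    · rintro ⟨⟨h1, h2⟩, h3⟩
      exact ⟨⟨by omega, h2⟩, h3⟩
    · rintro ⟨⟨h1, h2⟩, h3⟩
      exact ⟨⟨hf d h3, h2⟩, h3⟩
  congr 2
  · have := e (fun p => p.Prime ∧ ¬ GoodE PSet.P a ε p) (fun d hd => hd.1.two_le)
    convert congrArg Finset.card this
  · have := e (fun p => p.Prime) (fun d hd => hd.two_le)
    convert congrArg Finset.card this

/-- the three families together -/
theorem cand_lim (hAS : P3_AS0) (a ε : ℝ) (ha : 2 < a) (hε : 0 < ε) :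
    Tendsto (fun X : ℕ => (((Finset.Ioc 0 X).filter (fun D => (D.Prime ∨ Two D ∨ Semi D) ∧
      ¬ GoodE PSet.P a ε D)).card : ℝ) /
      (((Finset.Ioc 0 X).filter (fun D => D.Prime ∨ Two D ∨ Semi D)).card : ℝ)) atTop (nhds 0) := by
  have key := union_lim Nat.Prime Two Semi (fun D => ¬ GoodE PSet.P a ε D)
    (by convert prime_lim hAS a ε ha hε) (by convert two_lim hAS a ε ha hε)
    (by convert semi_lim hAS a ε ha hε)
  convert key

end Pool.Agent.N71.PS
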